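import Pool.Agent.P.MP_38279d_an.Defs

set_option autoImplicit false

namespace Pool.Agent.P.MP_38279d_an

/-- The Banach space adjoint of a bounded operator: a functional `f` goes to `f ∘ T`. -/
noncomputable def adj {𝕜 X Y : Type*} [RCLike 𝕜] [NormedAddCommGroup X] [NormedSpace 𝕜 X]
    [NormedAddCommGroup Y] [NormedSpace 𝕜 Y] (T : X →L[𝕜] Y) :
    StrongDual 𝕜 Y →L[𝕜] StrongDual 𝕜 X :=
  (ContinuousLinearMap.compL 𝕜 X Y 𝕜).flip T

/-- The second adjoint of `T` has norm separable range. -/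
def SepBiadjoint {𝕜 X Y : Type*} [RCLike 𝕜] [NormedAddCommGroup X] [NormedSpace 𝕜 X]
    [NormedAddCommGroup Y] [NormedSpace 𝕜 Y] (T : X →L[𝕜] Y) : Prop :=
  TopologicalSpace.IsSeparable (Set.range (adj (adj T)))

end Pool.Agent.P.MP_38279d_an
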