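import Pool.Agent.P.MP_38279d_an.Final
import Pool.Agent.P.MP_38279d_an.AboveDefs

set_option autoImplicit false

namespace Pool.Agent.P.MP_38279d_an

open Finset Filter Topology

variable {𝕜 : Type*} [RCLike 𝕜]

theorem refine_count {Ω Z : Type*} [Countable Z] (f : Ω → Z) {A : Set Ω} (hA : ¬ A.Countable) :
    ∃ z, ¬ {ω ∈ A | f ω = z}.Countable := by
  by_contra h
  push Not at h
  refine hA ((Set.countable_iUnion h).mono fun ω hω => Set.mem_iUnion.2 ⟨f ω, ?_⟩)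
  exact ⟨hω, rfl⟩

theorem refine_one {Ω Z : Type*} [PseudoMetricSpace Z] {s : Set Z}
    (hs : TopologicalSpace.IsSeparable s) (f : Ω → Z) (hf : ∀ ω, f ω ∈ s) {δ : ℝ} (hδ : 0 < δ)
    {A : Set Ω} (hA : ¬ A.Countable) :
    ∃ B ⊆ A, ¬ B.Countable ∧ ∀ ω ∈ B, ∀ ω' ∈ B, dist (f ω) (f ω') ≤ δ := by
  obtain ⟨c, hc, hsc⟩ := hs
  have := hc.to_subtype
  choose g hg hd using fun ω => Metric.mem_closure_iff.1 (hsc (hf ω)) (δ / 2) (by positivity)
  obtain ⟨z, hz⟩ := refine_count (fun ω => (⟨g ω, hg ω⟩ : c)) hA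
  refine ⟨_, fun ω hω => hω.1, hz, fun ω hω ω' hω' => ?_⟩
  have e : g ω = g ω' := congrArg Subtype.val (hω.2.trans hω'.2.symm)
  have h1 := dist_triangle_right (f ω) (f ω') (g ω)
  have h2 := hd ω'
  rw [← e] at h2
  linarith [hd ω]

theorem refine_fin {Ω Z ι : Type*} [PseudoMetricSpace Z] {s : Set Z}
    (hs : TopologicalSpace.IsSeparable s) (f : ι → Ω → Z) (hf : ∀ i ω, f i ω ∈ s) {δ : ℝ}
    (hδ : 0 < δ) (I : Finset ι) {A : Set Ω} (hA : ¬ A.Countable) :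
    ∃ B ⊆ A, ¬ B.Countable ∧ ∀ i ∈ I, ∀ ω ∈ B, ∀ ω' ∈ B, dist (f i ω) (f i ω') ≤ δ := by
  classical
  induction I using Finset.induction_on with
  | empty => exact ⟨A, subset_rfl, hA, by simp⟩
  | insert a I _ ih =>
    obtain ⟨B, hBA, hB, h⟩ := ih
    obtain ⟨B', h1, h2, h3⟩ := refine_one hs (f a) (hf a) hδ hB
    refine ⟨B', h1.trans hBA, h2, fun i hi ω hω ω' hω' => ?_⟩
    rcases mem_insert.1 hi with rfl | hi
    · exact h3 ω hω ω' hω'
    · exact h i hi ω (h1 hω) ω' (h1 hω')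

/-- The dual of a normed space. -/
abbrev Dl (𝕜 Y : Type*) [RCLike 𝕜] [NormedAddCommGroup Y] [NormedSpace 𝕜 Y] : Type _ :=
  StrongDual 𝕜 Y

section general

variable {X Y X' Y' : Type*} [NormedAddCommGroup X] [NormedSpace 𝕜 X] [NormedAddCommGroup Y]
  [NormedSpace 𝕜 Y] [NormedAddCommGroup X'] [NormedSpace 𝕜 X'] [NormedAddCommGroup Y']
  [NormedSpace 𝕜 Y']

@[simp] theorem adj_apply (T : X →L[𝕜] Y) (f : StrongDual 𝕜 Y) (x : X) : adj T f x = f (T x) := rfl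

theorem adj_add (S T : X →L[𝕜] Y) : adj (S + T) = adj S + adj T := map_add _ _ _

theorem adj_comp (S : Y →L[𝕜] Y') (T : X →L[𝕜] Y) : adj (S.comp T) = (adj T).comp (adj S) := by
  ext f x
  rfl

theorem norm_adj_le (T : X →L[𝕜] Y) : ‖adj T‖ ≤ ‖T‖ :=
  ContinuousLinearMap.opNorm_le_bound _ (norm_nonneg _) fun f => by
    rw [mul_comm]
    exact f.opNorm_comp_le T

theorem exists_ulim (x : ℕ → X) (hx : ∀ m, ‖x m‖ ≤ 1) :
    ∃ G : StrongDual 𝕜 (StrongDual 𝕜 X), ‖G‖ ≤ 1 ∧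
      ∀ h : StrongDual 𝕜 X, Tendsto (fun m => h (x m)) (hyperfilter ℕ) (𝓝 (G h)) := by
  have : ∀ h : StrongDual 𝕜 X, ∃ z ∈ Metric.closedBall (0 : 𝕜) ‖h‖,
      Tendsto (fun m => h (x m)) (hyperfilter ℕ) (𝓝 z) := fun h =>
    (isCompact_closedBall (0 : 𝕜) ‖h‖).ultrafilter_le_nhds ((hyperfilter ℕ).map fun m => h (x m))
      (by
        rw [Ultrafilter.coe_map, le_principal_iff, Filter.mem_map]
        refine univ_mem' fun m => ?_
        simpa using h.le_of_opNorm_le_of_le le_rfl (hx m))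
  choose L hL ht using this
  refine ⟨LinearMap.mkContinuous
    { toFun := L
      map_add' := fun f g => tendsto_nhds_unique (ht (f + g)) ((ht f).add (ht g))
      map_smul' := fun c f => tendsto_nhds_unique (ht (c • f)) ((ht f).const_smul c) } 1
    (fun h => by simpa using hL h), LinearMap.mkContinuous_norm_le _ zero_le_one _, ht⟩

/-- On an uncountable part of every uncountable family, differences have seminorm at most `ε`. -/
def Thin (N : ℕ) (W : ℕ → ℕ → ℝ) (T : X →L[𝕜] Y) (ε : ℝ) : Prop :=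
  ∀ (R : ℝ) (b : Set ℕ → ℕ → X) (A : Set (Set ℕ)), (∀ ω i, ‖b ω i‖ ≤ R) → ¬ A.Countable →
    ∃ B ⊆ A, ¬ B.Countable ∧ ∀ ω ∈ B, ∀ ω' ∈ B,
      ∑ j ∈ range N, ‖∑ i ∈ range N, (W i j : 𝕜) • T (b ω i - b ω' i)‖ ≤
        ε * R * ∑ i ∈ range N, ∑ j ∈ range N, |W i j|

variable {N : ℕ} {W : ℕ → ℕ → ℝ}

theorem Thin.mono {T : X →L[𝕜] Y} {ε δ : ℝ} (h : Thin N W T ε) (hle : ε ≤ δ) : Thin N W T δ := by
  intro R b A hb hA
  have hR : 0 ≤ R := (norm_nonneg _).trans (hb ∅ 0)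
  obtain ⟨B, h1, h2, h3⟩ := h R b A hb hA
  exact ⟨B, h1, h2, fun ω hω ω' hω' => (h3 ω hω ω' hω').trans (mul_le_mul_of_nonneg_right
    (mul_le_mul_of_nonneg_right hle hR) (mass_nonneg N W))⟩

theorem sum_le_mass (z : ℕ → Y) {δ : ℝ} (hz : ∀ i ∈ range N, ‖z i‖ ≤ δ) :
    ∑ j ∈ range N, ‖∑ i ∈ range N, (W i j : 𝕜) • z i‖ ≤
      δ * ∑ i ∈ range N, ∑ j ∈ range N, |W i j| := by
  rw [sum_comm, mul_sum]
  refine sum_le_sum fun j _ => ?_
  rw [mul_sum]
  refine (norm_sum_le _ _).trans (sum_le_sum fun i hi => ?_)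
  rw [norm_smul, RCLike.norm_ofReal, mul_comm]
  exact mul_le_mul_of_nonneg_right (hz i hi) (abs_nonneg _)

theorem thin_norm (T : X →L[𝕜] Y) : Thin N W T (‖T‖ * 2) := by
  intro R b A hb hA
  refine ⟨A, subset_rfl, hA, fun ω _ ω' _ => sum_le_mass _ fun i _ => ?_⟩
  rw [mul_assoc]
  exact T.le_of_opNorm_le_of_le le_rfl ((norm_sub_le _ _).trans (by linarith [hb ω i, hb ω' i]))

theorem thin_sep {T : X →L[𝕜] Y} (hT : TopologicalSpace.IsSeparable (Set.range T)) {ε : ℝ}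
    (hε : 0 < ε) : Thin N W T ε := by
  intro R b A hb hA
  rcases ((norm_nonneg _).trans (hb ∅ 0)).eq_or_lt with rfl | hR
  · refine ⟨A, subset_rfl, hA, fun ω _ ω' _ => sum_le_mass _ fun i _ => ?_⟩
    rw [norm_le_zero_iff.1 (hb ω i), norm_le_zero_iff.1 (hb ω' i)]
    simp
  obtain ⟨B, h1, h2, h3⟩ := refine_fin hT (fun i ω => T (b ω i)) (fun _ _ => ⟨_, rfl⟩)
    (mul_pos hε hR) (range N) hA
  refine ⟨B, h1, h2, fun ω hω ω' hω' => sum_le_mass _ fun i hi => ?_⟩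
  rw [map_sub, ← dist_eq_norm]
  exact h3 i hi ω hω ω' hω'

theorem Thin.add {T S : X →L[𝕜] Y} {ε δ : ℝ} (h : Thin N W T ε) (h' : Thin N W S δ) :
    Thin N W (T + S) (ε + δ) := by
  intro R b A hb hA
  obtain ⟨B, h1, h2, h3⟩ := h R b A hb hA
  obtain ⟨B', h4, h5, h6⟩ := h' R b B hb h2
  refine ⟨B', h4.trans h1, h5, fun ω hω ω' hω' => ?_⟩
  rw [add_mul, add_mul]
  refine le_trans ?_ (add_le_add (h3 ω (h4 hω) ω' (h4 hω')) (h6 ω hω ω' hω'))
  rw [← sum_add_distrib]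
  refine sum_le_sum fun j _ => ?_
  simp only [add_apply, smul_add, sum_add_distrib]
  exact norm_add_le _ _

theorem Thin.comp {T : X →L[𝕜] Y} {ε : ℝ} (h : Thin N W T ε) (A : X' →L[𝕜] X)
    (B : Y →L[𝕜] Y') : Thin N W (B.comp (T.comp A)) (‖B‖ * (ε * ‖A‖)) := by
  intro R b D hb hD
  obtain ⟨D', h1, h2, h3⟩ := h (‖A‖ * R) (fun ω i => A (b ω i)) D
    (fun ω i => A.le_of_opNorm_le_of_le le_rfl (hb ω i)) hD
  refine ⟨D', h1, h2, fun ω hω ω' hω' => ?_⟩
  refine le_trans ?_ ((mul_le_mul_of_nonneg_left (h3 ω hω ω' hω') (norm_nonneg B)).trans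
    (le_of_eq (by ring)))
  rw [mul_sum]
  refine sum_le_sum fun j _ => ?_
  refine le_trans (le_of_eq ?_) (B.le_opNorm _)
  simp [map_sum]

theorem thin_comp_eventually {N : ℕ → ℕ} {W : ℕ → ℕ → ℕ → ℝ}
    {T : X →L[𝕜] Y} (h : ∀ ε > 0, ∀ᶠ k in atTop, Thin (N k) (W k) T ε)
    (A : X' →L[𝕜] X) (B : Y →L[𝕜] Y') :
    ∀ ε > 0, ∀ᶠ k in atTop, Thin (N k) (W k) (B.comp (T.comp A)) ε := by
  intro ε hε
  have hp : 0 < ‖B‖ * ‖A‖ + 1 := by positivity
  filter_upwards [h (ε / (‖B‖ * ‖A‖ + 1)) (by positivity)] with k hk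
  refine (hk.comp A B).mono ?_
  have : ‖B‖ * (ε / (‖B‖ * ‖A‖ + 1) * ‖A‖) = ε * (‖B‖ * ‖A‖) / (‖B‖ * ‖A‖ + 1) := by ring
  rw [this, div_le_iff₀ hp]
  nlinarith

end general

/-- The set of operators attached to a family `U` of branches. -/
def upIdeal (𝕜 X Y : Type) [RCLike 𝕜] [NormedAddCommGroup X] [NormedSpace 𝕜 X]
    [NormedAddCommGroup Y] [NormedSpace 𝕜 Y] (N : ℕ → ℕ) (W : ℕ → ℕ → ℕ → ℝ)
    (U : Set (Set ℕ)) : Set (X →L[𝕜] Y) :=
  {T | ∀ r ∈ U, ∀ ε > 0, ∀ᶠ k in atTop, Thin (N (code r k)) (W (code r k)) (adj (adj T)) ε}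

theorem upIdeal_spec (𝕜 X Y : Type) [RCLike 𝕜] [NormedAddCommGroup X] [NormedSpace 𝕜 X]
    [NormedAddCommGroup Y] [NormedSpace 𝕜 Y] (N : ℕ → ℕ) (W : ℕ → ℕ → ℕ → ℝ)
    (U : Set (Set ℕ)) : IsClosedIdeal 𝕜 X Y (upIdeal 𝕜 X Y N W U) ∧
      ∀ T, SepBiadjoint T → T ∈ upIdeal 𝕜 X Y N W U := by
  have hn : ∀ (T : X →L[𝕜] Y) n, Thin (N n) (W n) (adj (adj T)) (‖T‖ * 2) := fun T n =>
    (thin_norm _).mono (by linarith [norm_adj_le (adj T), norm_adj_le T])
  have hc : ∀ T ∈ upIdeal 𝕜 X Y N W U, ∀ (A : Y →L[𝕜] Y) (B : X →L[𝕜] X),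
      A.comp (T.comp B) ∈ upIdeal 𝕜 X Y N W U := by
    intro T hT A B r hr
    simp only [adj_comp]
    exact thin_comp_eventually (N := fun k => N (code r k)) (W := fun k => W (code r k))
      (hT r hr) (adj (adj B)) (adj (adj A))
  refine ⟨⟨?_, ?_, ?_, ?_, hc⟩, fun T hT r _ ε hε => Eventually.of_forall fun k => thin_sep hT hε⟩
  · apply isClosed_of_closure_subset
    intro T hT r hr ε hε
    obtain ⟨S, hS, hd⟩ := Metric.mem_closure_iff.1 hT (ε / 4) (by positivity)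
    filter_upwards [hS r hr (ε / 2) (by positivity)] with k hk
    have := hk.add (hn (T - S) _)
    rw [← adj_add, ← adj_add, add_sub_cancel] at this
    refine this.mono ?_
    rw [dist_eq_norm] at hd
    linarith
  · exact fun r _ ε hε => Eventually.of_forall fun k => (hn 0 _).mono (by simpa using hε.le)
  · intro T hT S hS r hr ε hε
    filter_upwards [hT r hr (ε / 2) (by positivity), hS r hr (ε / 2) (by positivity)] with k h1 h2
    rw [adj_add, adj_add]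
    simpa using h1.add h2
  · intro c T hT
    simpa using hc T hT (c • ContinuousLinearMap.id 𝕜 Y) (ContinuousLinearMap.id 𝕜 X)

/-- The unit vectors of the space of null sequences. -/
noncomputable def sing (v : ℕ) : C0 𝕜 where
  toFun := fun w => if w = v then 1 else 0
  continuous_toFun := continuous_of_discreteTopology
  zero_at_infty' := by
    rw [cocompact_eq_cofinite]
    refine tendsto_nhds_of_eventually_eq ?_
    filter_upwards [eventually_cofinite_ne v] with w hw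
    exact if_neg hw

theorem sum_sing (a : ℕ → 𝕜) (s : Finset ℕ) (w : ℕ) :
    (∑ v ∈ s, a v • (sing v : C0 𝕜)) w = if w ∈ s then a w else 0 := by
  rw [← evalC0_apply, map_sum]
  have : ∀ v, evalC0 w (a v • (sing v : C0 𝕜)) = if w = v then a v else 0 := fun v => by
    rw [map_smul]
    change a v • (if w = v then (1 : 𝕜) else 0) = _
    split_ifs <;> simp
  simp only [this, sum_ite_eq]

theorem hasSum_sing (z : C0 𝕜) : HasSum (fun v => z v • (sing v : C0 𝕜)) z := by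
  refine Metric.tendsto_nhds.2 fun ε hε => ?_
  have h1 := Metric.tendsto_nhds.1 (zero_at_infty z) (ε / 2) (by positivity)
  rw [cocompact_eq_cofinite, eventually_cofinite] at h1
  filter_upwards [eventually_ge_atTop h1.toFinset] with s hs
  rw [dist_eq_norm]
  refine lt_of_le_of_lt (c0_norm_le _ (C := ε / 2) (by positivity) fun w => ?_) (by linarith)
  rw [ZeroAtInftyContinuousMap.sub_apply, sum_sing]
  split_ifs with hw
  · simp
    positivity
  · have : w ∉ h1.toFinset := fun h => hw (hs h)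
    simp only [Set.Finite.mem_toFinset, Set.mem_ofPred_eq, not_not, dist_zero_right] at this
    simpa using this.le

/-- Evaluation at a coordinate, as an element of the dual. -/
noncomputable def crd (v : ℕ) : Dl 𝕜 (C0 𝕜) := evalC0 v

@[simp] theorem crd_apply (v : ℕ) (z : C0 𝕜) : crd v z = z v := rfl

theorem norm_crd_le (v : ℕ) : ‖(crd v : Dl 𝕜 (C0 𝕜))‖ ≤ 1 :=
  ContinuousLinearMap.opNorm_le_bound _ zero_le_one fun z => by simpa using c0_apply_le z v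

theorem bidual_c0_le (G : Dl 𝕜 (Dl 𝕜 (C0 𝕜))) {M : ℝ}
    (h : ∀ v, ‖G (crd v)‖ ≤ M) : ‖G‖ ≤ M := by
  have hM : 0 ≤ M := (norm_nonneg _).trans (h 0)
  refine G.opNorm_le_bound hM fun f => ?_
  have h1 : ∀ s : Finset ℕ, ∑ v ∈ s, ‖f (sing v)‖ ≤ ‖f‖ := by
    intro s
    choose τ hτ hτ' using fun v => RCLike.exists_norm_eq_mul_self (f (sing v))
    have h2 : ‖∑ v ∈ s, τ v • (sing v : C0 𝕜)‖ ≤ 1 := c0_norm_le _ zero_le_one fun w => by
      rw [sum_sing]
      split_ifs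
      · exact (hτ w).le
      · simp
    have h3 := f.le_of_opNorm_le_of_le le_rfl h2
    have h4 : f (∑ v ∈ s, τ v • sing v) = ((∑ v ∈ s, ‖f (sing v)‖ : ℝ) : 𝕜) := by
      push_cast
      simp [map_sum, hτ']
    rw [h4, RCLike.norm_ofReal, mul_one] at h3
    exact (le_abs_self _).trans h3
  have h2 : Summable fun v => ‖f (sing v)‖ := summable_of_sum_le (fun _ => norm_nonneg _) h1
  have h3 : Summable fun v => f (sing v) • (crd v : Dl 𝕜 (C0 𝕜)) :=
    Summable.of_norm_bounded h2 fun v => by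
      rw [norm_smul]
      exact mul_le_of_le_one_right (norm_nonneg _) (norm_crd_le v)
  have h4 : ∑' v, f (sing v) • (crd v : Dl 𝕜 (C0 𝕜)) = f := by
    ext z
    refine (h3.hasSum.mapL (ContinuousLinearMap.apply 𝕜 𝕜 z)).unique ?_
    simpa [mul_comm] using (hasSum_sing z).mapL f
  have h5 := h3.hasSum.mapL G
  rw [h4] at h5
  refine (h5.norm_le_of_bounded (h2.hasSum.mul_left M) fun v => ?_).trans
    (mul_le_mul_of_nonneg_left (h2.tsum_le_of_sum_le h1) hM)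
  rw [map_smul, norm_smul, mul_comm]
  exact mul_le_mul_of_nonneg_right (h v) (norm_nonneg _)

theorem bidual_c0_exists (G : Dl 𝕜 (Dl 𝕜 (C0 𝕜))) :
    ∃ v, ‖G‖ ≤ 2 * ‖G (crd v)‖ := by
  by_contra h
  push Not at h
  have h0 := h 0
  have h1 := norm_nonneg (G (crd 0))
  have := bidual_c0_le G (M := ‖G‖ / 2) (fun v => by linarith [h v])
  linarith

theorem dual_l1_le (g : Dl 𝕜 (L1 𝕜)) {M : ℝ} (h : ∀ u, ‖g (lp.single 1 u 1)‖ ≤ M) :
    ‖g‖ ≤ M :=
  g.opNorm_le_bound ((norm_nonneg _).trans (h 0)) fun b => by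
    rw [mul_comm]
    exact l1_bound g h b

theorem dual_l1_exists (g : Dl 𝕜 (L1 𝕜)) : ∃ u, ‖g‖ ≤ 2 * ‖g (lp.single 1 u 1)‖ := by
  by_contra h
  push Not at h
  have h0 := h 0
  have h1 := norm_nonneg (g (lp.single 1 0 1))
  have := dual_l1_le g (M := ‖g‖ / 2) (fun v => by linarith [h v])
  linarith

/-- A bounded functional gives little weight to far layers of a decreasing sequence of sets. -/
theorem far_layers (F : Dl 𝕜 (Dl 𝕜 (L1 𝕜))) (C : ℕ → Set ℕ) (hC : Antitone C)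
    {δ : ℝ} (hδ : 0 < δ) : ∃ l, ∀ l', ∀ h : Dl 𝕜 (L1 𝕜),
      (∀ u, ‖h (lp.single 1 u 1)‖ ≤ 1) → (∀ u, h (lp.single 1 u 1) ≠ 0 → u ∈ C l \ C l') →
        ‖F h‖ ≤ δ := by
  by_contra hcon
  push Not at hcon
  have key : ∀ m : ℕ, ∃ l', ∃ h : Dl 𝕜 (L1 𝕜), (∀ u, ‖h (lp.single 1 u 1)‖ ≤ 1) ∧
      (∀ u, h (lp.single 1 u 1) ≠ 0 → u ∉ C l') ∧ m * δ ≤ ‖F h‖ := by
    intro m
    induction m with
    | zero => exact ⟨0, 0, by simp, by simp, by simp⟩
    | succ m ih =>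
      obtain ⟨l, h, h1, h2, h3⟩ := ih
      obtain ⟨l', g, g1, g2, g3⟩ := hcon l
      obtain ⟨τ, hτ, hτ'⟩ := RCLike.exists_norm_eq_mul_self (F h)
      obtain ⟨σ, hσ, hσ'⟩ := RCLike.exists_norm_eq_mul_self (F g)
      refine ⟨max l l', τ • h + σ • g, fun u => ?_, fun u hu hm => ?_, ?_⟩
      · by_cases h0 : g (lp.single 1 u 1) = 0
        · simpa [h0, hτ] using h1 u
        · have : h (lp.single 1 u 1) = 0 := by
            by_contra h'
            exact h2 u h' (g2 u h0).1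
          simpa [this, hσ] using g1 u
      · apply hu
        have e1 : h (lp.single 1 u 1) = 0 := by
          by_contra h'
          exact h2 u h' (hC (le_max_left _ _) hm)
        have e2 : g (lp.single 1 u 1) = 0 := by
          by_contra h'
          exact (g2 u h').2 (hC (le_max_right _ _) hm)
        simp [e1, e2]
      · have : F (τ • h + σ • g) = ((‖F h‖ + ‖F g‖ : ℝ) : 𝕜) := by
          push_cast
          simp [hτ', hσ']
        rw [this, RCLike.norm_ofReal, abs_of_nonneg (by positivity)]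
        push_cast
        linarith
  obtain ⟨m, hm⟩ := exists_nat_gt (‖F‖ / δ)
  obtain ⟨l, h, h1, -, h3⟩ := key m
  have := F.le_of_opNorm_le_of_le le_rfl (dual_l1_le h h1)
  rw [div_lt_iff₀ hδ] at hm
  linarith

end Pool.Agent.P.MP_38279d_an
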