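import Pool.Agent.P.MP_38279d_an.AboveA

set_option autoImplicit false

namespace Pool.Agent.P.MP_38279d_an

open Finset Filter Topology

variable {𝕜 : Type*} [RCLike 𝕜]

/-- Decoding of an index as a triple: index of the small matrix, level, finite set. -/
def dec : ℕ ≃ ℕ × ℕ × Finset ℕ := (Denumerable.eqv _).symm

open Classical in
/-- The first `k` digits of a branch. -/
noncomputable def cut (r : Set ℕ) (k : ℕ) : Finset ℕ := (range k).filter (· ∈ r)

theorem cut_filter (r : Set ℕ) {k l : ℕ} (h : k ≤ l) : (cut r l).filter (· < k) = cut r k := by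
  ext x
  simp only [cut, mem_filter, mem_range]
  exact ⟨fun h' => ⟨h'.2, h'.1.2⟩, fun h' => ⟨⟨h'.1.trans_le h, h'.2⟩, h'.1⟩⟩

theorem filter_filter_lt (F : Finset ℕ) {k l : ℕ} (h : k ≤ l) :
    (F.filter (· < l)).filter (· < k) = F.filter (· < k) := by
  ext x
  simp only [mem_filter]
  exact ⟨fun h' => ⟨h'.1.1, h'.2⟩, fun h' => ⟨⟨h'.1, h'.2.trans_le h⟩, h'.2⟩⟩

/-- The product of the matrix `t` with the order matrix of the binary tree. -/
noncomputable def amp (t : ℕ → ℕ → ℝ) (c w : ℕ × ℕ × Finset ℕ) : ℝ :=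
  if w.1 ≤ w.2.1 ∧ w.2.1 ≤ c.2.1 ∧ w.2.2 = c.2.2.filter (· < w.2.1) then t c.1 w.1 else 0

theorem amp_ne {t : ℕ → ℕ → ℝ} {c w : ℕ × ℕ × Finset ℕ} (h : amp t c w ≠ 0) :
    w.1 ≤ w.2.1 ∧ w.2.1 ≤ c.2.1 ∧ w.2.2 = c.2.2.filter (· < w.2.1) := by
  by_contra h'
  exact h (if_neg h')

theorem abs_amp_le {t : ℕ → ℕ → ℝ} (ht : ∀ u v, |t u v| ≤ 1) (c w : ℕ × ℕ × Finset ℕ) :
    |amp t c w| ≤ 1 := by
  unfold amp
  split_ifs
  · exact ht _ _
  · simp

/-- The rows of level below `l` that can be nonzero. -/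
def low (l : ℕ) : Finset (ℕ × ℕ × Finset ℕ) := range l ×ˢ range l ×ˢ (range l).powerset

theorem mem_low {t : ℕ → ℕ → ℝ} {c w : ℕ × ℕ × Finset ℕ} (h : amp t c w ≠ 0) {l : ℕ}
    (hl : w.2.1 < l) : w ∈ low l := by
  obtain ⟨h1, -, h3⟩ := amp_ne h
  simp only [low, mem_product, mem_range, mem_powerset]
  refine ⟨h1.trans_lt hl, hl, fun x hx => ?_⟩
  rw [h3] at hx
  exact mem_range.2 ((mem_filter.1 hx).2.trans hl)

theorem exists_amp (t : ℕ → ℕ → ℝ) (ht : ∀ u v, |t u v| ≤ 1) :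
    ∃ S : L1 𝕜 →L[𝕜] C0 𝕜, ∀ c w, S (lp.single 1 c 1) w = (amp t (dec c) (dec w) : 𝕜) := by
  refine exists_op (fun c w => amp t (dec c) (dec w)) (fun _ _ => abs_amp_le ht _ _) fun c => ?_
  refine ((low ((dec c).2.1 + 1)).finite_toSet.preimage dec.injective.injOn).subset fun w hw => ?_
  exact mem_low hw (Nat.lt_succ_of_le (amp_ne hw).2.1)

/-- The columns that follow the branch `r` up to level `m`. -/
def cone (r : Set ℕ) (m : ℕ) : Set ℕ :=
  {c | m ≤ (dec c).2.1 ∧ (dec c).2.2.filter (· < m) = cut r m}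

theorem cone_anti (r : Set ℕ) : Antitone (cone r) := fun _ _ h c hc =>
  ⟨h.trans hc.1, by rw [← filter_filter_lt _ h, hc.2, cut_filter r h]⟩

section rows

variable {t : ℕ → ℕ → ℝ} (ht : ∀ u v, |t u v| ≤ 1) (row : ℕ × ℕ × Finset ℕ → Dl 𝕜 (L1 𝕜))
  (hrow : ∀ w c, row w (lp.single 1 c 1) = (amp t (dec c) w : 𝕜))

include ht hrow in
theorem far_rows (F : ℕ → Dl 𝕜 (Dl 𝕜 (L1 𝕜))) (N : ℕ) {δ : ℝ} (hδ : 0 < δ) :
    ∃ l, ∀ w : ℕ × ℕ × Finset ℕ, l ≤ w.2.1 → ∀ K, w.2.1 ≤ K → ∃ (G : Finset ℕ) (c : ℝ),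
      |c| ≤ 1 ∧ ∀ i ∈ range N, ‖F i (row w) - c * F i (row (w.1, K, G))‖ ≤ δ := by
  classical
  by_contra hcon
  push Not at hcon
  choose w hw K hK h using hcon
  let r : Set ℕ := {x | ∀ᶠ l in hyperfilter ℕ, x ∈ (w l).2.2}
  choose l0 hl0 using fun i => far_layers (F i) (cone r) (cone_anti r) hδ
  set m := (range N).sup l0 with hm
  have e1 : ∀ᶠ l in hyperfilter ℕ, ∀ x ∈ range m, (x ∈ (w l).2.2 ↔ x ∈ r) := by
    refine (eventually_all_finset _).2 fun x _ => ?_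
    by_cases hx : x ∈ r
    · filter_upwards [hx] with l hl
      exact iff_of_true hl hx
    · filter_upwards [Ultrafilter.eventually_not.2 hx] with l hl
      exact iff_of_false hl hx
  have e2 : ∀ᶠ l in hyperfilter ℕ, m ≤ l :=
    (Nat.hyperfilter_le_atTop) (eventually_ge_atTop m)
  obtain ⟨l, h1, h2⟩ := (e1.and e2).exists
  have h3 : (w l).2.2.filter (· < m) = cut r m := by
    ext x
    simp only [cut, mem_filter, mem_range]
    exact ⟨fun h' => ⟨h'.2, (h1 x (mem_range.2 h'.2)).1 h'.1⟩,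
      fun h' => ⟨(h1 x (mem_range.2 h'.1)).2 h'.2, h'.1⟩⟩
  have hmp : m ≤ (w l).2.1 := h2.trans (hw l)
  have hin : ∀ c, amp t (dec c) (w l) ≠ 0 → c ∈ cone r m := fun c hc => by
    obtain ⟨-, a2, a3⟩ := amp_ne hc
    exact ⟨hmp.trans a2, by rw [← filter_filter_lt _ hmp, ← a3, h3]⟩
  have hfin : ∀ (c : ℝ) (g : Dl 𝕜 (L1 𝕜)), g = row (w l) - (c : 𝕜) • row ((w l).1, K l, cut r (K l)) →
      |c| ≤ 1 → (∀ u, ‖g (lp.single 1 u 1)‖ ≤ 1) →
      (∀ u, g (lp.single 1 u 1) ≠ 0 → u ∈ cone r m \ cone r (K l)) → False := by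
    intro c g hg hc g1 g2
    obtain ⟨i, hi, hlt⟩ := h l (cut r (K l)) c hc
    have := hl0 i (K l) g g1 fun u hu =>
      ⟨cone_anti r (le_sup (f := l0) hi) (g2 u hu).1, (g2 u hu).2⟩
    rw [hg, map_sub, map_smul, smul_eq_mul] at this
    exact absurd this (not_le.2 hlt)
  by_cases hb : (w l).1 ≤ (w l).2.1 ∧ (w l).2.2 = cut r (w l).2.1
  · have hv : ∀ c, (row (w l) - ((1 : ℝ) : 𝕜) • row ((w l).1, K l, cut r (K l)))
        (lp.single 1 c 1) = if c ∈ cone r (K l) then 0 else (amp t (dec c) (w l) : 𝕜) := by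
      intro c
      rw [sub_apply, smul_apply, hrow, hrow]
      split_ifs with hc
      · have a1 := cone_anti r (hK l) hc
        rw [amp, amp, if_pos ⟨hb.1, a1.1, hb.2.trans a1.2.symm⟩,
          if_pos ⟨hb.1.trans (hK l), hc.1, hc.2.symm⟩]
        simp
      · have a1 : amp t (dec c) ((w l).1, K l, cut r (K l)) = 0 :=
          if_neg fun h' => hc ⟨h'.2.1, h'.2.2.symm⟩
        simp [a1]
    refine hfin 1 _ rfl (by simp) (fun u => ?_) fun u hu => ?_
    · rw [hv]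
      split_ifs
      · simp
      · rw [RCLike.norm_ofReal]
        exact abs_amp_le ht _ _
    · rw [hv] at hu
      split_ifs at hu with hc
      · exact absurd rfl hu
      · exact ⟨hin u (by simpa using hu), hc⟩
  · refine hfin 0 (row (w l)) (by ext x; simp) (by simp) (fun u => ?_) fun u hu => ?_
    · rw [hrow, RCLike.norm_ofReal]
      exact abs_amp_le ht _ _
    · rw [hrow] at hu
      have hu' : amp t (dec u) (w l) ≠ 0 := by simpa using hu
      refine ⟨hin u hu', fun hc => hb ⟨(amp_ne hu').1, ?_⟩⟩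
      rw [(amp_ne hu').2.2, (cone_anti r (hK l) hc).2]

variable {N : ℕ} {W : ℕ → ℕ → ℝ} {η : ℝ}
  (hcut : ∀ (u v : ℕ → ℕ) (a b : ℕ → ℝ), (∀ i, |a i| ≤ 1) → (∀ j, |b j| ≤ 1) →
    ∑ i ∈ range N, ∑ j ∈ range N, W i j * a i * b j * t (u i) (v j) ≤ η)

include hcut in
theorem level_cut (K : ℕ) (c : ℕ → ℕ × ℕ × Finset ℕ) (v : ℕ → ℕ) (G : ℕ → Finset ℕ)
    (a b : ℕ → ℝ) (ha : ∀ i, |a i| ≤ 1) (hb : ∀ j, |b j| ≤ 1) :
    ∑ i ∈ range N, ∑ j ∈ range N, W i j * a i * b j * amp t (c i) (v j, K, G j) ≤ η := by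
  have h1 : CutLe N (fun i j => W i j * t (c i).1 (v j)) η := fun a b ha hb =>
    le_trans (le_of_eq (sum_congr rfl fun i _ => sum_congr rfl fun j _ => by ring))
      (hcut (fun i => (c i).1) v a b ha hb)
  have h2 := h1.blocky (fun i => Encodable.encode ((c i).2.2.filter (· < K)))
    (fun j => Encodable.encode (G j)) (fun i => if K ≤ (c i).2.1 then a i else 0)
    (fun j => if v j ≤ K then b j else 0)
    (fun i => by
      split_ifs
      · exact ha i
      · simp)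
    (fun j => by
      split_ifs
      · exact hb j
      · simp)
  refine le_trans (le_of_eq (sum_congr rfl fun i _ => sum_congr rfl fun j _ => ?_)) h2
  simp only [amp, Encodable.encode_inj, eq_comm (a := G j)]
  by_cases e1 : K ≤ (c i).2.1 <;> by_cases e2 : v j ≤ K <;>
    by_cases e3 : (c i).2.2.filter (· < K) = G j <;> simp [e1, e2, e3]
  ring

include hrow hcut in
theorem level_bound (K : ℕ) (v : ℕ → ℕ) (G : ℕ → Finset ℕ) (F : ℕ → Dl 𝕜 (Dl 𝕜 (L1 𝕜))) {R : ℝ}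
    (hF : ∀ i, ‖F i‖ ≤ R) :
    ∑ j ∈ range N, ‖∑ i ∈ range N, (W i j : 𝕜) * F i (row (v j, K, G j))‖ ≤ 4 * R * η := by
  have hR : 0 ≤ R := (norm_nonneg _).trans (hF 0)
  choose τ hτ hτ' using fun j => RCLike.exists_norm_eq_mul_self
    (∑ i ∈ range N, (W i j : 𝕜) * F i (row (v j, K, G j)))
  let g : ℕ → Dl 𝕜 (L1 𝕜) := fun i => ∑ j ∈ range N, (τ j * W i j) • row (v j, K, G j)
  choose u hu using fun i => dual_l1_exists (g i)
  choose σ hσ hσ' using fun i => RCLike.exists_norm_eq_mul_self (g i (lp.single 1 (u i) 1))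
  have e1 : ∑ j ∈ range N, ‖∑ i ∈ range N, (W i j : 𝕜) * F i (row (v j, K, G j))‖ ≤
      ∑ i ∈ range N, ‖F i (g i)‖ := by
    have : ((∑ j ∈ range N, ‖∑ i ∈ range N, (W i j : 𝕜) * F i (row (v j, K, G j))‖ : ℝ) : 𝕜) =
        ∑ i ∈ range N, F i (g i) := by
      push_cast
      simp_rw [hτ', g, map_sum, mul_sum]
      rw [sum_comm]
      refine sum_congr rfl fun i _ => sum_congr rfl fun j _ => ?_
      simp [mul_assoc]
    refine le_trans ?_ (norm_sum_le _ _)
    rw [← this, RCLike.norm_ofReal]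
    exact le_abs_self _
  have hre : ∀ z : 𝕜, ‖z‖ = 1 → |RCLike.re z| ≤ 1 := fun z hz => hz ▸ RCLike.abs_re_le_norm z
  have him : ∀ z : 𝕜, ‖z‖ = 1 → |RCLike.im z| ≤ 1 := fun z hz => hz ▸ RCLike.abs_im_le_norm z
  have e2 := level_cut hcut K (fun i => dec (u i)) v G (fun i => RCLike.re (σ i))
    (fun j => RCLike.re (τ j)) (fun i => hre _ (hσ i)) (fun j => hre _ (hτ j))
  have e3 := level_cut hcut K (fun i => dec (u i)) v G (fun i => -RCLike.im (σ i))
    (fun j => RCLike.im (τ j)) (fun i => by rw [abs_neg]; exact him _ (hσ i))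
    (fun j => him _ (hτ j))
  have e4 : ∑ i ∈ range N, ‖g i (lp.single 1 (u i) 1)‖ ≤ 2 * η := by
    rw [two_mul]
    refine le_trans (le_of_eq ?_) (add_le_add e2 e3)
    rw [← sum_add_distrib]
    refine sum_congr rfl fun i _ => ?_
    have := congrArg RCLike.re (hσ' i)
    rw [RCLike.ofReal_re] at this
    rw [this, _root_.sum_apply, mul_sum, map_sum, ← sum_add_distrib]
    refine sum_congr rfl fun j _ => ?_
    rw [smul_apply, hrow]
    simp only [smul_eq_mul, RCLike.mul_re, RCLike.mul_im, RCLike.ofReal_re, RCLike.ofReal_im]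
    ring
  refine e1.trans ((sum_le_sum fun i _ => (F i).le_of_opNorm_le_of_le (hF i) (hu i)).trans ?_)
  rw [← mul_sum, ← mul_sum]
  nlinarith [mul_le_mul_of_nonneg_left e4 hR]

include ht hrow hcut in
theorem far_bound (F : ℕ → Dl 𝕜 (Dl 𝕜 (L1 𝕜))) {R : ℝ} (hF : ∀ i, ‖F i‖ ≤ R) {δ : ℝ}
    (hδ : 0 < δ) : ∃ l, ∀ w : ℕ → ℕ × ℕ × Finset ℕ,
      ∑ j ∈ range N, (if l ≤ (w j).2.1 then ‖∑ i ∈ range N, (W i j : 𝕜) * F i (row (w j))‖ else 0)
        ≤ 4 * R * η + δ * ∑ i ∈ range N, ∑ j ∈ range N, |W i j| := by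
  obtain ⟨l, hl⟩ := far_rows ht row hrow F N hδ
  refine ⟨l, fun w => ?_⟩
  set K := (range N).sup fun j => (w j).2.1 with hK
  have : ∀ j, ∃ G : Finset ℕ, j ∈ range N →
      (if l ≤ (w j).2.1 then ‖∑ i ∈ range N, (W i j : 𝕜) * F i (row (w j))‖ else 0) ≤
      ‖∑ i ∈ range N, (W i j : 𝕜) * F i (row ((w j).1, K, G))‖ + δ * ∑ i ∈ range N, |W i j| := by
    intro j
    by_cases hj : j ∈ range N ∧ l ≤ (w j).2.1
    · obtain ⟨G, c, hc, h⟩ := hl (w j) hj.2 K (le_sup (f := fun j => (w j).2.1) hj.1)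
      refine ⟨G, fun _ => ?_⟩
      rw [if_pos hj.2]
      have e : ∑ i ∈ range N, (W i j : 𝕜) * F i (row (w j)) =
          c * ∑ i ∈ range N, (W i j : 𝕜) * F i (row ((w j).1, K, G)) + ∑ i ∈ range N,
            (W i j : 𝕜) * (F i (row (w j)) - c * F i (row ((w j).1, K, G))) := by
        rw [mul_sum, ← sum_add_distrib]
        exact sum_congr rfl fun i _ => by ring
      rw [e]
      refine (norm_add_le _ _).trans (add_le_add ?_ ?_)
      · rw [norm_mul, RCLike.norm_ofReal]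
        exact mul_le_of_le_one_left (norm_nonneg _) hc
      · rw [mul_sum]
        refine (norm_sum_le _ _).trans (sum_le_sum fun i hi => ?_)
        rw [norm_mul, RCLike.norm_ofReal, mul_comm]
        exact mul_le_mul_of_nonneg_right (h i hi) (abs_nonneg _)
    · refine ⟨∅, fun h => ?_⟩
      rw [if_neg fun h' => hj ⟨h, h'⟩]
      positivity
  choose G hG using this
  refine (sum_le_sum hG).trans ?_
  rw [sum_add_distrib, ← mul_sum, sum_comm (f := fun j i => |W i j|)]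
  exact add_le_add (level_bound row hrow hcut K (fun j => (w j).1) G F hF) le_rfl

end rows

theorem thin_amp {t : ℕ → ℕ → ℝ} (ht : ∀ u v, |t u v| ≤ 1) {N : ℕ} {W : ℕ → ℕ → ℝ} {η : ℝ}
    (hcut : ∀ (u v : ℕ → ℕ) (a b : ℕ → ℝ), (∀ i, |a i| ≤ 1) → (∀ j, |b j| ≤ 1) →
      ∑ i ∈ range N, ∑ j ∈ range N, W i j * a i * b j * t (u i) (v j) ≤
        η * ∑ i ∈ range N, ∑ j ∈ range N, |W i j|) (hη : 0 < η)
    (S : L1 𝕜 →L[𝕜] C0 𝕜) (hS : ∀ c w, S (lp.single 1 c 1) w = (amp t (dec c) (dec w) : 𝕜)) :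
    Thin N W (adj (adj S)) (22 * η) := by
  intro R F A hF hA
  rcases ((norm_nonneg _).trans (hF ∅ 0)).eq_or_lt with rfl | hR
  · refine ⟨A, subset_rfl, hA, fun ω _ ω' _ => sum_le_mass _ fun i _ => ?_⟩
    rw [norm_le_zero_iff.1 (hF ω i), norm_le_zero_iff.1 (hF ω' i)]
    simp
  let row : ℕ × ℕ × Finset ℕ → Dl 𝕜 (L1 𝕜) := fun w => adj S (crd (dec.symm w))
  have hrow : ∀ w c, row w (lp.single 1 c 1) = (amp t (dec c) w : 𝕜) := fun w c => by
    simp [row, hS]
  have hδ : 0 < η * R := mul_pos hη hR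
  choose l hl using fun ω => far_bound ht row hrow hcut (F ω) (hF ω) hδ
  obtain ⟨L, hL⟩ := refine_count l hA
  obtain ⟨B, h1, h2, h3⟩ := refine_fin (TopologicalSpace.IsSeparable.of_separableSpace Set.univ)
    (fun (p : ℕ × ℕ × ℕ × Finset ℕ) ω => F ω p.1 (row p.2)) (fun _ _ => Set.mem_univ _) hδ
    (range N ×ˢ low L) hL
  refine ⟨B, fun ω hω => (h1 hω).1, h2, fun ω hω ω' hω' => ?_⟩
  choose v hv using fun j => bidual_c0_exists
    (∑ i ∈ range N, (W i j : 𝕜) • adj (adj S) (F ω i - F ω' i))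
  have a1 := hl ω fun j => dec (v j)
  have a2 := hl ω' fun j => dec (v j)
  rw [(h1 hω).2] at a1
  rw [(h1 hω').2] at a2
  have key : ∀ j ∈ range N, ‖∑ i ∈ range N, (W i j : 𝕜) • adj (adj S) (F ω i - F ω' i)‖ ≤
      2 * ((if L ≤ (dec (v j)).2.1 then ‖∑ i ∈ range N, (W i j : 𝕜) * F ω i (row (dec (v j)))‖
        else 0) + (if L ≤ (dec (v j)).2.1 then
          ‖∑ i ∈ range N, (W i j : 𝕜) * F ω' i (row (dec (v j)))‖ else 0) +
        η * R * ∑ i ∈ range N, |W i j|) := by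
    intro j _
    refine (hv j).trans (mul_le_mul_of_nonneg_left ?_ zero_le_two)
    have e : (∑ i ∈ range N, (W i j : 𝕜) • adj (adj S) (F ω i - F ω' i)) (crd (v j)) =
        ∑ i ∈ range N, (W i j : 𝕜) * (F ω i (row (dec (v j))) - F ω' i (row (dec (v j)))) := by
      rw [_root_.sum_apply]
      refine sum_congr rfl fun i _ => ?_
      simp only [row, Equiv.symm_apply_apply]
      rfl
    rw [e]
    split_ifs with hj
    · simp only [mul_sub, sum_sub_distrib]
      exact (norm_sub_le _ _).trans (le_add_of_nonneg_right (by positivity))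
    · rw [add_zero, zero_add, mul_sum]
      refine (norm_sum_le _ _).trans (sum_le_sum fun i hi => ?_)
      rw [norm_mul, RCLike.norm_ofReal, mul_comm]
      refine mul_le_mul_of_nonneg_right ?_ (abs_nonneg _)
      by_cases hw : dec (v j) ∈ low L
      · rw [← dist_eq_norm]
        exact h3 (i, dec (v j)) (mem_product.2 ⟨hi, hw⟩) ω hω ω' hω'
      · have : row (dec (v j)) = 0 := norm_le_zero_iff.1 (dual_l1_le _ fun u => by
          rw [hrow, not_not.1 fun h => hw (mem_low h (not_le.1 hj))]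
          simp)
        simp [this, hδ.le]
  refine (sum_le_sum key).trans ?_
  rw [← mul_sum, sum_add_distrib, sum_add_distrib, ← mul_sum,
    sum_comm (f := fun j i => |W i j|)]
  linarith

theorem not_thin_amp {N : ℕ} {W : ℕ → ℕ → ℝ} (hsq : ∀ i j, W i j * W i j = |W i j|)
    (hpos : 0 < ∑ i ∈ range N, ∑ j ∈ range N, |W i j|) {t : ℕ → ℕ → ℝ} (f : ℕ → ℕ)
    (hf : ∀ i j, t (f i) (f j) = W i j)
    (S : L1 𝕜 →L[𝕜] C0 𝕜) (hS : ∀ c w, S (lp.single 1 c 1) w = (amp t (dec c) (dec w) : 𝕜)) :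
    ¬ Thin N W (adj (adj S)) (1 / 2) := by
  intro h
  choose F hF hF' using fun (ω : Set ℕ) (i : ℕ) => exists_ulim (𝕜 := 𝕜)
    (fun m => (lp.single 1 (dec.symm (f i, m, cut ω m)) 1 : L1 𝕜))
    (fun m => by rw [lp.norm_single (by simp)]; simp)
  have : Uncountable (Set ℕ) := by
    rw [← Cardinal.aleph0_lt_mk_iff, Cardinal.mk_set, Cardinal.mk_nat]
    exact Cardinal.cantor _
  obtain ⟨B, -, h2, h3⟩ := h 1 F Set.univ hF Set.not_countable_univ
  obtain ⟨ω, hω, ω', hω', hne⟩ := Set.not_subsingleton_iff.1 fun h' => h2 h'.countable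
  obtain ⟨x, hx⟩ : ∃ x, ¬ (x ∈ ω ↔ x ∈ ω') := by
    by_contra h'
    push Not at h'
    exact hne (Set.ext fun x => by simpa using h' x)
  set p := max (x + 1) ((range N).sup f) with hp
  have hcut : cut ω p ≠ cut ω' p := fun e => by
    have h1 := Finset.ext_iff.1 e x
    have h4 : x < p := lt_of_lt_of_le (Nat.lt_succ_self x) (le_max_left _ _)
    simp only [cut, mem_filter, mem_range, h4, true_and] at h1
    exact hx h1
  have hval : ∀ (a : Set ℕ) (i : ℕ), ∀ j ∈ range N,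
      F a i (adj S (crd (dec.symm (f j, p, cut ω p)))) =
        if cut ω p = cut a p then (W i j : 𝕜) else 0 := by
    intro a i j hj
    refine tendsto_nhds_unique (hF' a i _) (tendsto_nhds_of_eventually_eq ?_)
    filter_upwards [Nat.hyperfilter_le_atTop (eventually_ge_atTop p)] with m hm
    have h4 : f j ≤ p := (le_sup (f := f) hj).trans (le_max_right _ _)
    simp only [adj_apply, crd_apply, hS, Equiv.apply_symm_apply, amp, cut_filter a hm, h4, hm,
      true_and, hf]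
    split_ifs <;> simp
  have h5 : ∑ i ∈ range N, ∑ j ∈ range N, |W i j| ≤
      ∑ j ∈ range N, ‖∑ i ∈ range N, (W i j : 𝕜) • adj (adj S) (F ω i - F ω' i)‖ := by
    rw [sum_comm]
    refine sum_le_sum fun j hj => ?_
    have e : (∑ i ∈ range N, (W i j : 𝕜) • adj (adj S) (F ω i - F ω' i))
        (crd (dec.symm (f j, p, cut ω p))) = ((∑ i ∈ range N, |W i j| : ℝ) : 𝕜) := by
      rw [_root_.sum_apply, RCLike.ofReal_sum]
      refine sum_congr rfl fun i _ => ?_
      rw [smul_apply, adj_apply, sub_apply, hval ω i j hj,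
        hval ω' i j hj, if_pos rfl, if_neg hcut, ← hsq]
      simp
    have := (∑ i ∈ range N, (W i j : 𝕜) • adj (adj S) (F ω i - F ω' i)).le_of_opNorm_le_of_le
      le_rfl (norm_crd_le (dec.symm (f j, p, cut ω p)))
    rw [e, RCLike.norm_ofReal, mul_one] at this
    exact (le_abs_self _).trans this
  linarith [h3 ω hω ω' hω']

open Cardinal in
theorem card_above (𝕜 : Type) [RCLike 𝕜] :
    Cardinal.mk {J : Set (L1 𝕜 →L[𝕜] C0 𝕜) // IsClosedIdeal 𝕜 (L1 𝕜) (C0 𝕜) J ∧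
      ∀ T, SepBiadjoint T → T ∈ J} = 2 ^ 𝔠 := by
  apply le_antisymm
  · refine (mk_subtype_le _).trans ?_
    rw [mk_set]
    exact power_le_power_left two_ne_zero (mk_l1_c0_le 𝕜)
  obtain ⟨N, W, h⟩ := exists_blocks
  have hW : ∀ n i j, |W n i j| ≤ 1 := fun n => (h n).le_one
  choose S hS using fun q : Set ℕ =>
    exists_amp (𝕜 := 𝕜) _ (abs_diagMat_le hW (Set.range (code q)))
  have hmem : ∀ (q : Set ℕ) (U : Set (Set ℕ)), S q ∈ upIdeal 𝕜 _ _ N W U ↔ q ∉ U := by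
    intro q U
    constructor
    · intro hq hU
      obtain ⟨k, hk⟩ := (hq q hU (1 / 2) (by positivity)).exists
      exact not_thin_amp (h _).sq (h _).pos (Nat.pair (code q k))
        (diagMat_pair (s := Set.range (code q)) ⟨k, rfl⟩) _ (hS q) hk
    · intro hU r hr ε hε
      have hne : r ≠ q := fun h' => hU (h' ▸ hr)
      have ht : Tendsto (fun k => (22 : ℝ) / ((code r k : ℕ) + 1)) atTop (𝓝 0) :=
        Tendsto.div_atTop tendsto_const_nhds (tendsto_atTop_add_const_right _ _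
          (tendsto_natCast_atTop_atTop.comp (tendsto_code r)))
      filter_upwards [eventually_code hne, ht.eventually (gt_mem_nhds hε)] with k h1 h2
      refine (thin_amp (abs_diagMat_le hW _) (main_estimate h h1) (by positivity) _ (hS q)).mono ?_
      rw [mul_one_div]
      exact h2.le
  rw [← mk_set_set_nat]
  refine mk_le_of_injective (f := fun U => ⟨upIdeal 𝕜 _ _ N W U, upIdeal_spec 𝕜 _ _ N W U⟩)
    fun U V hUV => ?_
  ext q
  have h1 := hmem q U
  rw [show upIdeal 𝕜 _ _ N W U = upIdeal 𝕜 _ _ N W V from congrArg Subtype.val hUV, hmem q V] at h1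
  tauto

end Pool.Agent.P.MP_38279d_an
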