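import Pool.Agent.P.MP_38279d_an.Graph

set_option autoImplicit false

namespace Pool.Agent.P.MP_38279d_an

open Finset

theorem LocTree.comap {α β α' β' : Type*} {K : ℕ} {R : α → β → Prop} (h : LocTree K R)
    (R' : α' → β' → Prop) (f : α' → α) (g : β' → β) (hR : ∀ x y, R' x y → R (f x) (g y))
    (hf : ∀ x y x' y', R' x y → R' x' y' → f x = f x' → x = x')
    (hg : ∀ x y x' y', R' x y → R' x' y' → g y = g y' → y = y') : LocTree K R' := by
  classical
  intro F hF hc hRF
  obtain ⟨e, he, h1⟩ := h (F.image (fun p => (f p.1, g p.2))) (hF.image _)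
    (card_image_le.trans hc) (by
      intro e he
      obtain ⟨p, hp, rfl⟩ := mem_image.1 he
      exact hR _ _ (hRF p hp))
  obtain ⟨p, hp, rfl⟩ := mem_image.1 he
  refine ⟨p, hp, ?_⟩
  rcases h1 with h1 | h1
  · refine Or.inl fun q hq hqp => ?_
    have := h1 (f q.1, g q.2) (mem_image_of_mem _ hq) (by simp [hqp])
    exact Prod.ext hqp (hg _ _ _ _ (hRF q hq) (hRF p hp) (Prod.ext_iff.1 this).2)
  · refine Or.inr fun q hq hqp => ?_
    have := h1 (f q.1, g q.2) (mem_image_of_mem _ hq) (by simp [hqp])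
    exact Prod.ext (hf _ _ _ _ (hRF q hq) (hRF p hp) (Prod.ext_iff.1 this).1) hqp

theorem LocTree.mono {α β : Type*} {K K' : ℕ} {R : α → β → Prop} (h : LocTree K R)
    (hK : K' ≤ K) : LocTree K' R :=
  fun F hF hc hR => h F hF (hc.trans hK) hR

/-- The sign attached to a boolean. -/
def sg (b : Bool) : ℝ := if b then 1 else -1

theorem sg_mul_self (b : Bool) : sg b * sg b = 1 := by cases b <;> simp [sg]

theorem abs_sg (b : Bool) : |sg b| = 1 := by cases b <;> simp [sg]

theorem exists_sg (x : ℝ) : ∃ b : Bool, sg b * x = |x| := by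
  rcases le_total 0 x with h | h
  · exact ⟨true, by simp [sg, abs_of_nonneg h]⟩
  · exact ⟨false, by simp [sg, abs_of_nonpos h]⟩

theorem exists_signs_aux {α : Type} [Fintype α] [DecidableEq α] (E : Finset (α × α)) (l : ℝ) :
    ∃ ε : α × α → Bool, ∀ a b : α → Bool,
      l * ∑ p ∈ E, sg (ε p) * sg (a p.1) * sg (b p.2) ≤
        2 * Fintype.card α + l ^ 2 / 2 * E.card := by
  let G : (α × α → Bool) → (α → Bool) × (α → Bool) → ℝ := fun ε ab =>
    Real.exp (l * ∑ p ∈ E, sg (ε p) * sg (ab.1 p.1) * sg (ab.2 p.2))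
  have hG : ∀ ab : (α → Bool) × (α → Bool), ∑ ε, G ε ab ≤
      ∑ _ε : α × α → Bool, Real.exp (l ^ 2 / 2 * E.card) := by
    intro ab
    have h1 : ∀ ε : α × α → Bool, G ε ab = ∏ p : α × α,
        (if p ∈ E then Real.exp (l * (sg (ε p) * sg (ab.1 p.1) * sg (ab.2 p.2))) else 1) := by
      intro ε
      simp only [G, mul_sum, Real.exp_sum]
      rw [Finset.prod_ite_mem, univ_inter]
    simp_rw [h1]
    have h2 := Finset.prod_univ_sum (fun _ : α × α => (univ : Finset Bool))
      (fun p (e : Bool) => if p ∈ E then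
        Real.exp (l * (sg e * sg (ab.1 p.1) * sg (ab.2 p.2))) else 1)
    rw [Fintype.piFinset_univ] at h2
    rw [← h2]
    have h3 : ∑ _ε : α × α → Bool, Real.exp (l ^ 2 / 2 * E.card) =
        ∏ p : α × α, (2 * if p ∈ E then Real.exp (l ^ 2 / 2) else 1) := by
      rw [prod_mul_distrib, Finset.prod_ite_mem, univ_inter, prod_const, prod_const, sum_const,
        card_univ, card_univ, Fintype.card_fun, Fintype.card_bool, nsmul_eq_mul, mul_comm (l ^ 2 / 2),
        Real.exp_nat_mul]
      push_cast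
      rfl
    rw [h3]
    apply Finset.prod_le_prod
    · intro p _
      apply sum_nonneg
      intro e _
      split_ifs
      · exact (Real.exp_pos _).le
      · exact zero_le_one
    · intro p _
      rw [Fintype.sum_bool]
      split_ifs
      · have hc := Real.cosh_le_exp_half_sq l
        rw [Real.cosh_eq] at hc
        cases ab.1 p.1 <;> cases ab.2 p.2 <;> simp [sg] <;> linarith
      · norm_num
  have hsum : ∑ ε, ∑ ab, G ε ab ≤
      ∑ _ε : α × α → Bool, ∑ _ab : (α → Bool) × (α → Bool), Real.exp (l ^ 2 / 2 * E.card) := by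
    rw [sum_comm, sum_comm (s := (univ : Finset (α × α → Bool)))]
    exact sum_le_sum fun ab _ => hG ab
  obtain ⟨ε, -, hε⟩ := Finset.exists_le_of_sum_le univ_nonempty hsum
  refine ⟨ε, fun a b => ?_⟩
  have h1 : G ε (a, b) ≤ ∑ ab, G ε ab :=
    single_le_sum (f := fun ab => G ε ab) (fun ab _ => (Real.exp_pos _).le) (mem_univ _)
  have h2 : ∑ _ab : (α → Bool) × (α → Bool), Real.exp (l ^ 2 / 2 * E.card) ≤
      Real.exp (2 * Fintype.card α + l ^ 2 / 2 * E.card) := by
    rw [sum_const, card_univ, Fintype.card_prod, Fintype.card_fun, Fintype.card_bool, nsmul_eq_mul,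
      Real.exp_add]
    apply mul_le_mul_of_nonneg_right _ (Real.exp_pos _).le
    have h3 : (2 : ℝ) ^ Fintype.card α ≤ Real.exp (Fintype.card α) := by
      rw [← mul_one (Fintype.card α : ℝ), Real.exp_nat_mul]
      apply pow_le_pow_left₀ (by norm_num)
      have := Real.add_one_le_exp 1
      linarith
    push_cast
    rw [two_mul, Real.exp_add]
    exact mul_le_mul h3 h3 (by positivity) (Real.exp_pos _).le
  exact Real.exp_le_exp.1 (h1.trans (hε.trans h2))

theorem bilin_le {α : Type} [Fintype α] (W : α → α → ℝ) (c : ℝ)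
    (h : ∀ a b : α → Bool, ∑ i, ∑ j, W i j * sg (a i) * sg (b j) ≤ c) (a b : α → ℝ)
    (ha : ∀ i, |a i| ≤ 1) (hb : ∀ j, |b j| ≤ 1) : ∑ i, ∑ j, W i j * a i * b j ≤ c := by
  choose a' ha' using fun i => exists_sg (∑ j, W i j * b j)
  choose b' hb' using fun j => exists_sg (∑ i, W i j * sg (a' i))
  refine le_trans ?_ (h a' b')
  calc ∑ i, ∑ j, W i j * a i * b j = ∑ i, a i * ∑ j, W i j * b j := by
        refine sum_congr rfl fun i _ => ?_
        rw [mul_sum]
        exact sum_congr rfl fun j _ => by ring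
    _ ≤ ∑ i, sg (a' i) * ∑ j, W i j * b j := by
        refine sum_le_sum fun i _ => ?_
        rw [ha']
        refine (le_abs_self _).trans ?_
        rw [abs_mul]
        exact mul_le_of_le_one_left (abs_nonneg _) (ha i)
    _ = ∑ j, b j * ∑ i, W i j * sg (a' i) := by
        simp_rw [mul_sum]
        rw [sum_comm]
        exact sum_congr rfl fun j _ => sum_congr rfl fun i _ => by ring
    _ ≤ ∑ j, sg (b' j) * ∑ i, W i j * sg (a' i) := by
        refine sum_le_sum fun j _ => ?_
        rw [hb']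
        refine (le_abs_self _).trans ?_
        rw [abs_mul]
        exact mul_le_of_le_one_left (abs_nonneg _) (hb j)
    _ = ∑ i, ∑ j, W i j * sg (a' i) * sg (b' j) := by
        simp_rw [mul_sum]
        rw [sum_comm]
        exact sum_congr rfl fun j _ => sum_congr rfl fun i _ => by ring

/-- The properties required of one block. -/
structure IsBlock (K : ℕ) (η : ℝ) (N : ℕ) (W : ℕ → ℕ → ℝ) : Prop where
  sq : ∀ i j, W i j * W i j = |W i j|
  le_one : ∀ i j, |W i j| ≤ 1
  supp : ∀ i j, W i j ≠ 0 → i < N ∧ j < N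
  pos : 0 < ∑ i ∈ range N, ∑ j ∈ range N, |W i j|
  tree : LocTree K (fun i j => W i j ≠ 0)
  cut : ∀ a b : ℕ → ℝ, (∀ i, |a i| ≤ 1) → (∀ j, |b j| ≤ 1) →
    ∑ i ∈ range N, ∑ j ∈ range N, W i j * a i * b j ≤ η * ∑ i ∈ range N, ∑ j ∈ range N, |W i j|

theorem exists_block (K : ℕ) (η : ℝ) (hη : 0 < η) : ∃ (N : ℕ) (W : ℕ → ℕ → ℝ), IsBlock K η N W := by
  classical
  obtain ⟨d, hd⟩ := exists_nat_gt (4 / η ^ 2)
  have hd0 : 0 < d := by
    have : (0 : ℝ) < d := lt_trans (by positivity) hd
    exact_mod_cast this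
  obtain ⟨α, _, R, hpos, hR, hcard⟩ := exists_graph d K hd0
  set E := univ.filter (fun p : α × α => R p.1 p.2) with hE
  obtain ⟨ε, hε⟩ := exists_signs_aux E η
  set N := Fintype.card α with hN
  let e : α ≃ Fin N := Fintype.equivFin α
  let g : ℕ → α := fun i => if h : i < N then e.symm ⟨i, h⟩ else e.symm ⟨0, hpos⟩
  have hg : ∀ x : α, g (e x) = x := by
    intro x
    simp [g]
  have hginj : ∀ i j, i < N → j < N → g i = g j → i = j := by
    intro i j hi hj hij
    simp only [g, hi, hj, dite_true] at hij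
    simpa using hij
  let W0 : α → α → ℝ := fun x y => if R x y then sg (ε (x, y)) else 0
  let W : ℕ → ℕ → ℝ := fun i j => if i < N ∧ j < N then W0 (g i) (g j) else 0
  have hsum : ∀ φ : ℝ → ℕ → ℕ → ℝ, ∑ i ∈ range N, ∑ j ∈ range N, φ (W i j) i j =
      ∑ x : α, ∑ y : α, φ (W0 x y) (e x) (e y) := by
    intro φ
    rw [Finset.sum_range, ← Equiv.sum_comp e]
    refine sum_congr rfl fun x _ => ?_
    rw [Finset.sum_range, ← Equiv.sum_comp e]
    refine sum_congr rfl fun y _ => ?_
    simp only [W, Fin.is_lt, and_self, if_true, hg]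
  have hmass : ∑ i ∈ range N, ∑ j ∈ range N, |W i j| = E.card := by
    rw [hsum (fun w _ _ => |w|), ← Finset.sum_product', univ_product_univ, hE, card_filter]
    push_cast
    refine sum_congr rfl fun p _ => ?_
    simp only [W0]
    split_ifs <;> simp [abs_sg]
  have hNpos : (0 : ℝ) < N := by exact_mod_cast hpos
  have hEc : (E.card : ℝ) = d * N := by exact_mod_cast hcard
  refine ⟨N, W, ?_, ?_, ?_, ?_, ?_, ?_⟩
  · intro i j
    simp only [W, W0]
    split_ifs <;> simp [abs_sg, sg_mul_self]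
  · intro i j
    simp only [W, W0]
    split_ifs <;> simp [abs_sg]
  · intro i j h
    by_contra h'
    exact h (if_neg h')
  · rw [hmass, hEc]
    positivity
  · have hW : ∀ i j, W i j ≠ 0 → (i < N ∧ j < N) ∧ R (g i) (g j) := by
      intro i j h
      simp only [W, W0] at h
      split_ifs at h with h1 h2
      · exact ⟨h1, h2⟩
      · exact absurd rfl h
      · exact absurd rfl h
    refine hR.locTree.comap _ g g (fun i j h => (hW i j h).2) ?_ ?_
    · intro x y x' y' h1 h2 h3
      exact hginj _ _ (hW _ _ h1).1.1 (hW _ _ h2).1.1 h3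
    · intro x y x' y' h1 h2 h3
      exact hginj _ _ (hW _ _ h1).1.2 (hW _ _ h2).1.2 h3
  · intro a b ha hb
    rw [hmass, hsum (fun w i j => w * a i * b j)]
    refine bilin_le W0 _ ?_ (fun x => a (e x)) (fun y => b (e y)) (fun x => ha _) (fun y => hb _)
    intro a' b'
    have h1 := hε a' b'
    have h2 : ∑ i, ∑ j, W0 i j * sg (a' i) * sg (b' j) =
        ∑ p ∈ E, sg (ε p) * sg (a' p.1) * sg (b' p.2) := by
      rw [← Finset.sum_product', univ_product_univ, hE, sum_filter]
      refine sum_congr rfl fun p _ => ?_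
      simp only [W0]
      split_ifs <;> simp
    rw [h2]
    have h3 : 4 < η ^ 2 * d := by
      rw [div_lt_iff₀ (by positivity)] at hd
      linarith
    have h4 : 2 * (N : ℝ) + η ^ 2 / 2 * E.card ≤ η * (η * E.card) := by
      rw [hEc]
      nlinarith
    exact le_of_mul_le_mul_left (h1.trans h4) hη

end Pool.Agent.P.MP_38279d_an
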