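import Pool.Agent.P.MP_38279d_an.Main

set_option autoImplicit false

namespace Pool.Agent.P.MP_38279d_an

open Cardinal TopologicalSpace Filter

theorem mk_le_continuum_of_separable (Y : Type) [MetricSpace Y] [SeparableSpace Y] :
    #Y ≤ 𝔠 := by
  rcases isEmpty_or_nonempty Y with h | h
  · simp
  have hinj : Function.Injective (fun (y : Y) (n : ℕ) => dist y (denseSeq Y n)) := by
    intro y y' h
    have h1 : (fun z => dist y z) = fun z => dist y' z :=
      (denseRange_denseSeq Y).equalizer (by fun_prop) (by fun_prop) h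
    have := congrFun h1 y'
    simpa using this
  refine (mk_le_of_injective hinj).trans ?_
  simp [mk_real]

theorem mk_clm_le_continuum (𝕜 : Type) [RCLike 𝕜] (X Y : Type) [NormedAddCommGroup X]
    [NormedSpace 𝕜 X] [NormedAddCommGroup Y] [NormedSpace 𝕜 Y] [SeparableSpace X]
    (hY : #Y ≤ 𝔠) : #(X →L[𝕜] Y) ≤ 𝔠 := by
  have hinj : Function.Injective (fun (T : X →L[𝕜] Y) (n : ℕ) => T (denseSeq X n)) := by
    intro T S h
    exact DFunLike.coe_injective ((denseRange_denseSeq X).equalizer T.continuous S.continuous h)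
  refine (mk_le_of_injective hinj).trans ?_
  rw [← power_def, mk_nat]
  exact (power_le_power_right hY).trans continuum_power_aleph0.le

theorem mk_set_set_nat : #(Set (Set ℕ)) = 2 ^ 𝔠 := by
  simp

theorem mk_le_of_setLike {A B : Type} [SetLike A B] (hB : #B ≤ 𝔠) : #A ≤ 2 ^ 𝔠 := by
  refine (mk_le_of_injective (SetLike.coe_injective (A := A))).trans ?_
  rw [mk_set]
  exact power_le_power_left two_ne_zero hB

theorem mk_l1_c0_le (𝕜 : Type) [RCLike 𝕜] : #(L1 𝕜 →L[𝕜] C0 𝕜) ≤ 𝔠 := by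
  have hinj : Function.Injective
      (fun (T : L1 𝕜 →L[𝕜] C0 𝕜) (p : ℕ × ℕ) => T (lp.single 1 p.1 1) p.2) := by
    intro T S h
    rw [← sub_eq_zero]
    ext b v
    have := l1_bound ((evalC0 v).comp (T - S)) (M := 0) (fun u => by
      have := congrFun h (u, v)
      simp only at this
      simp [this]) b
    simpa using this
  refine (mk_le_of_injective hinj).trans ?_
  rw [← power_def, mk_eq_aleph0 (ℕ × ℕ)]
  exact (power_le_power_right (mk_le_continuum_of_separable 𝕜)).trans continuum_power_aleph0.le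

theorem card_ideals (𝕜 : Type) [RCLike 𝕜] :
    #{J : Submodule 𝕜 (L1 𝕜 →L[𝕜] C0 𝕜) // IsClosed (J : Set (L1 𝕜 →L[𝕜] C0 𝕜)) ∧
      ∀ T ∈ J, ∀ (A : C0 𝕜 →L[𝕜] C0 𝕜) (B : L1 𝕜 →L[𝕜] L1 𝕜), A.comp (T.comp B) ∈ J} =
      2 ^ 𝔠 := by
  apply le_antisymm
  · exact (mk_subtype_le _).trans (mk_le_of_setLike (mk_l1_c0_le 𝕜))
  · obtain ⟨f, hf, h⟩ := exists_ideals_l1_c0 𝕜
    rw [← mk_set_set_nat]
    exact mk_le_of_injective (f := fun U => ⟨f U, (h U).1, fun T hT A B => (h U).2 T hT B A⟩)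
      fun U V hUV => hf (congrArg Subtype.val hUV)

end Pool.Agent.P.MP_38279d_an
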