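import Mathlib

set_option autoImplicit false

namespace Pool.Agent.P.MP_38279d_an

/-- A set `J` of bounded operators from `X` to `Y` is a closed ideal: it is norm closed, a linear
subspace, and stable under composition with operators on `Y` on the left and on `X` on the right. -/
structure IsClosedIdeal (𝕜 X Y : Type) [RCLike 𝕜] [NormedAddCommGroup X] [NormedSpace 𝕜 X]
    [NormedAddCommGroup Y] [NormedSpace 𝕜 Y] (J : Set (X →L[𝕜] Y)) : Prop where
  isClosed : IsClosed J
  zero_mem : 0 ∈ J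
  add_mem : ∀ S ∈ J, ∀ T ∈ J, S + T ∈ J
  smul_mem : ∀ (c : 𝕜), ∀ T ∈ J, c • T ∈ J
  comp_mem : ∀ T ∈ J, ∀ (A : Y →L[𝕜] Y) (B : X →L[𝕜] X), A.comp (T.comp B) ∈ J

/-- The number of closed ideals of the space of bounded operators from `X` to `Y`. -/
def numClosedIdeals (𝕜 X Y : Type) [RCLike 𝕜] [NormedAddCommGroup X] [NormedSpace 𝕜 X]
    [NormedAddCommGroup Y] [NormedSpace 𝕜 Y] : Cardinal :=
  Cardinal.mk {J : Set (X →L[𝕜] Y) // IsClosedIdeal 𝕜 X Y J}

end Pool.Agent.P.MP_38279d_an
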