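import Pool.Agent.P.MP_38279d_an.Block

set_option autoImplicit false

namespace Pool.Agent.P.MP_38279d_an

open Finset

theorem exists_trace_le {γ : Type*} [DecidableEq γ] (Q : γ → γ → ℝ) (L : Finset γ) :
    ∃ r : γ → ℝ, (∀ l, |r l| = 1) ∧ ∑ l ∈ L, Q l l ≤ ∑ l ∈ L, ∑ l' ∈ L, r l * r l' * Q l l' := by
  induction L using Finset.induction_on with
  | empty => exact ⟨fun _ => 1, by simp, by simp⟩
  | insert a L ha ih =>
    obtain ⟨r, hr, h⟩ := ih
    obtain ⟨s, hs⟩ := exists_sg (∑ l ∈ L, r l * (Q a l + Q l a))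
    have hne : ∀ l ∈ L, Function.update r a (sg s) l = r l := fun l hl =>
      Function.update_of_ne (by rintro rfl; exact ha hl) _ _
    refine ⟨Function.update r a (sg s), ?_, ?_⟩
    · intro l
      by_cases hl : l = a
      · subst hl; simp [abs_sg]
      · rw [Function.update_of_ne hl]; exact hr l
    · simp only [sum_insert ha, Function.update_self, sum_add_distrib]
      have e1 : ∑ l' ∈ L, sg s * Function.update r a (sg s) l' * Q a l' =
          sg s * ∑ l ∈ L, r l * Q a l := by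
        rw [mul_sum]
        exact sum_congr rfl fun l hl => by rw [hne l hl]; ring
      have e2 : ∑ l ∈ L, Function.update r a (sg s) l * sg s * Q l a =
          sg s * ∑ l ∈ L, r l * Q l a := by
        rw [mul_sum]
        exact sum_congr rfl fun l hl => by rw [hne l hl]; ring
      have e3 : ∑ l ∈ L, ∑ l' ∈ L,
          Function.update r a (sg s) l * Function.update r a (sg s) l' * Q l l' =
          ∑ l ∈ L, ∑ l' ∈ L, r l * r l' * Q l l' :=
        sum_congr rfl fun l hl => sum_congr rfl fun l' hl' => by rw [hne l hl, hne l' hl']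
      rw [e1, e2, e3, sg_mul_self]
      have e4 : ∑ l ∈ L, r l * (Q a l + Q l a) = ∑ l ∈ L, r l * Q a l + ∑ l ∈ L, r l * Q l a := by
        rw [← sum_add_distrib]
        exact sum_congr rfl fun l _ => by ring
      have := abs_nonneg (∑ l ∈ L, r l * (Q a l + Q l a))
      rw [← hs, e4, mul_add] at this
      linarith

/-- The cut bound for a matrix `W` on `[0,N) × [0,N)`. -/
def CutLe (N : ℕ) (W : ℕ → ℕ → ℝ) (c : ℝ) : Prop :=
  ∀ a b : ℕ → ℝ, (∀ i, |a i| ≤ 1) → (∀ j, |b j| ≤ 1) →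
    ∑ i ∈ range N, ∑ j ∈ range N, W i j * a i * b j ≤ c

theorem CutLe.nonneg {N : ℕ} {W : ℕ → ℕ → ℝ} {c : ℝ} (h : CutLe N W c) : 0 ≤ c := by
  simpa using h (fun _ => 0) (fun _ => 0) (by simp) (by simp)

theorem CutLe.blocky {N : ℕ} {W : ℕ → ℕ → ℝ} {c : ℝ} (h : CutLe N W c) (c1 c2 : ℕ → ℕ)
    (a b : ℕ → ℝ) (ha : ∀ i, |a i| ≤ 1) (hb : ∀ j, |b j| ≤ 1) :
    ∑ i ∈ range N, ∑ j ∈ range N, W i j * a i * b j * (if c1 i = c2 j then 1 else 0) ≤ c := by
  set L := (range N).image c1 ∪ (range N).image c2 with hL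
  obtain ⟨r, hr, h1⟩ := exists_trace_le (fun l l' => ∑ i ∈ range N, ∑ j ∈ range N,
    W i j * a i * b j * ((if c1 i = l then 1 else 0) * (if c2 j = l' then 1 else 0))) L
  have hm1 : ∀ i ∈ range N, c1 i ∈ L := fun i hi => mem_union_left _ (mem_image_of_mem _ hi)
  have hm2 : ∀ j ∈ range N, c2 j ∈ L := fun j hj => mem_union_right _ (mem_image_of_mem _ hj)
  have h2 := h (fun i => a i * r (c1 i)) (fun j => b j * r (c2 j))
    (fun i => by rw [abs_mul, hr, mul_one]; exact ha i)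
    (fun j => by rw [abs_mul, hr, mul_one]; exact hb j)
  refine le_trans (le_of_eq ?_) (h1.trans (le_trans (le_of_eq ?_) h2))
  · rw [sum_comm (s := L)]
    refine sum_congr rfl fun i hi => ?_
    rw [sum_comm (s := L)]
    refine sum_congr rfl fun j _ => ?_
    rw [← mul_sum]
    congr 1
    simp only [ite_mul, one_mul, zero_mul]
    rw [sum_ite_eq, if_pos (hm1 i hi)]
    simp only [eq_comm]
  · have : ∀ l ∈ L, ∑ l' ∈ L, r l * r l' * ∑ i ∈ range N, ∑ j ∈ range N,
        W i j * a i * b j * ((if c1 i = l then 1 else 0) * (if c2 j = l' then 1 else 0)) =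
        ∑ i ∈ range N, ∑ j ∈ range N, W i j * a i * (b j * r (c2 j)) *
          (if c1 i = l then r l else 0) := by
      intro l _
      simp_rw [mul_sum]
      rw [sum_comm (s := L)]
      refine sum_congr rfl fun i _ => ?_
      rw [sum_comm (s := L)]
      refine sum_congr rfl fun j hj => ?_
      rw [sum_eq_single (c2 j)]
      · split_ifs <;> simp_all
        ring
      · intro l' _ hl'
        rw [if_neg (Ne.symm hl')]
        simp
      · intro h'
        exact absurd (hm2 j hj) h'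
    rw [sum_congr rfl this, sum_comm (s := L)]
    refine sum_congr rfl fun i hi => ?_
    rw [sum_comm (s := L)]
    refine sum_congr rfl fun j _ => ?_
    rw [← mul_sum, sum_ite_eq, if_pos (hm1 i hi)]
    ring

theorem LocTree.orient {α β : Type*} [DecidableEq α] [DecidableEq β] {K : ℕ} {R : α → β → Prop}
    (h : LocTree K R) (F : Finset (α × β)) (hc : F.card ≤ K) (hR : ∀ p ∈ F, R p.1 p.2) :
    ∃ F₁ ⊆ F, (∀ p ∈ F₁, ∀ q ∈ F₁, p.1 = q.1 → p = q) ∧
      (∀ p ∈ F \ F₁, ∀ q ∈ F \ F₁, p.2 = q.2 → p = q) := by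
  induction F using Finset.strongInduction with
  | H F ih =>
    rcases F.eq_empty_or_nonempty with rfl | hF
    · exact ⟨∅, by simp, by simp, by simp⟩
    obtain ⟨p, hp, h1⟩ := h F hF hc hR
    obtain ⟨F₁, hsub, h2, h3⟩ := ih (F.erase p) (erase_ssubset hp)
      ((card_le_card (erase_subset _ _)).trans hc) (fun q hq => hR q (mem_of_mem_erase hq))
    have hsub' : F₁ ⊆ F := hsub.trans (erase_subset _ _)
    rcases h1 with h1 | h1
    · refine ⟨insert p F₁, insert_subset hp hsub', ?_, ?_⟩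
      · intro x hx y hy hxy
        rcases mem_insert.1 hx with rfl | hx'
        · exact (h1 y (insert_subset hp hsub' hy) hxy.symm).symm
        rcases mem_insert.1 hy with rfl | hy'
        · exact h1 x (hsub' hx') hxy
        exact h2 x hx' y hy' hxy
      · intro x hx y hy hxy
        simp only [mem_sdiff, mem_insert, not_or] at hx hy
        exact h3 x (mem_sdiff.2 ⟨mem_erase.2 ⟨hx.2.1, hx.1⟩, hx.2.2⟩) y
          (mem_sdiff.2 ⟨mem_erase.2 ⟨hy.2.1, hy.1⟩, hy.2.2⟩) hxy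
    · refine ⟨F₁, hsub', h2, ?_⟩
      intro x hx y hy hxy
      rw [mem_sdiff] at hx hy
      by_cases hxp : x = p
      · subst hxp
        exact (h1 y hy.1 hxy.symm).symm
      by_cases hyp : y = p
      · subst hyp
        exact h1 x hx.1 hxy
      exact h3 x (mem_sdiff.2 ⟨mem_erase.2 ⟨hxp, hx.1⟩, hx.2⟩) y
        (mem_sdiff.2 ⟨mem_erase.2 ⟨hyp, hy.1⟩, hy.2⟩) hxy

theorem exists_parent (t : ℕ → ℕ → ℝ) (ht : ∀ u v, |t u v| ≤ 1) (F : Finset (ℕ × ℕ))
    (hF : ∀ p ∈ F, ∀ q ∈ F, p.1 = q.1 → p = q) :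
    ∃ (par : ℕ → ℕ) (s : ℕ → ℝ), (∀ u, |s u| ≤ 1) ∧
      ∀ u v, (if (u, v) ∈ F then t u v else 0) = s u * (if par u = v then 1 else 0) := by
  classical
  refine ⟨fun u => if h : ∃ v, (u, v) ∈ F then h.choose else 0,
    fun u => if h : ∃ v, (u, v) ∈ F then t u h.choose else 0, ?_, ?_⟩
  · intro u
    dsimp only
    split_ifs
    · exact ht _ _
    · simp
  · intro u v
    dsimp only
    by_cases h : ∃ v, (u, v) ∈ F
    · simp only [dif_pos h]
      by_cases h1 : (u, v) ∈ F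
      · have := hF _ h.choose_spec _ h1 rfl
        have h2 : h.choose = v := (Prod.ext_iff.1 this).2
        rw [if_pos h1, if_pos h2, h2, mul_one]
      · have h2 : h.choose ≠ v := fun h2 => h1 (h2 ▸ h.choose_spec)
        rw [if_neg h1, if_neg h2, mul_zero]
    · rw [if_neg (fun h1 => h ⟨v, h1⟩), dif_neg h, zero_mul]

theorem CutLe.tree {N : ℕ} {W : ℕ → ℕ → ℝ} {c : ℝ} (h : CutLe N W c) (t : ℕ → ℕ → ℝ)
    (ht : ∀ u v, |t u v| ≤ 1) (htree : LocTree (N * N) (fun u v => t u v ≠ 0)) (u v : ℕ → ℕ)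
    (a b : ℕ → ℝ) (ha : ∀ i, |a i| ≤ 1) (hb : ∀ j, |b j| ≤ 1) :
    ∑ i ∈ range N, ∑ j ∈ range N, W i j * a i * b j * t (u i) (v j) ≤ 2 * c := by
  classical
  set F := (((range N).image u) ×ˢ ((range N).image v)).filter (fun p => t p.1 p.2 ≠ 0) with hF
  have hc : F.card ≤ N * N := by
    refine (card_filter_le _ _).trans ?_
    rw [card_product]
    exact Nat.mul_le_mul (card_image_le.trans (by simp)) (card_image_le.trans (by simp))
  obtain ⟨F₁, hsub, h1, h2⟩ := htree.orient F hc (fun p hp => (mem_filter.1 hp).2)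
  obtain ⟨par, s, hs, hpar⟩ := exists_parent t ht F₁ h1
  obtain ⟨par', s', hs', hpar'⟩ := exists_parent (fun x y => t y x) (fun _ _ => ht _ _)
    ((F \ F₁).image Prod.swap) (by
      intro p hp q hq hpq
      obtain ⟨p', hp', rfl⟩ := mem_image.1 hp
      obtain ⟨q', hq', rfl⟩ := mem_image.1 hq
      rw [h2 p' hp' q' hq' hpq])
  have e1 := h.blocky (fun i => par (u i)) v (fun i => a i * s (u i)) b
    (fun i => by rw [abs_mul]; exact mul_le_one₀ (ha i) (abs_nonneg _) (hs _)) hb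
  have e2 := h.blocky u (fun j => par' (v j)) a (fun j => b j * s' (v j)) ha
    (fun j => by rw [abs_mul]; exact mul_le_one₀ (hb j) (abs_nonneg _) (hs' _))
  rw [two_mul]
  refine le_trans (le_of_eq ?_) (add_le_add e1 e2)
  rw [← sum_add_distrib]
  refine sum_congr rfl fun i hi => ?_
  rw [← sum_add_distrib]
  refine sum_congr rfl fun j hj => ?_
  have e3 := hpar (u i) (v j)
  have e4 := hpar' (v j) (u i)
  have e5 : t (u i) (v j) = (if (u i, v j) ∈ F₁ then t (u i) (v j) else 0) +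
      (if (v j, u i) ∈ (F \ F₁).image Prod.swap then t (u i) (v j) else 0) := by
    have hsw : (v j, u i) ∈ (F \ F₁).image Prod.swap ↔ (u i, v j) ∈ F \ F₁ := by
      constructor
      · intro h'
        obtain ⟨p, hp, hp'⟩ := mem_image.1 h'
        have : p = (u i, v j) := by
          rw [← Prod.swap_swap p, hp']
          rfl
        exact this ▸ hp
      · intro h'
        exact mem_image.2 ⟨_, h', rfl⟩
    simp only [hsw, mem_sdiff]
    by_cases h0 : t (u i) (v j) = 0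
    · simp [h0]
    have hmem : (u i, v j) ∈ F :=
      mem_filter.2 ⟨mem_product.2 ⟨mem_image_of_mem _ hi, mem_image_of_mem _ hj⟩, h0⟩
    by_cases h3 : (u i, v j) ∈ F₁ <;> simp [h3, hmem]
  rw [e5, e3, e4]
  simp only [eq_comm (a := u i)]
  ring

theorem CutLe.small {N : ℕ} {W : ℕ → ℕ → ℝ} {c : ℝ} (h : CutLe N W c) (t : ℕ → ℕ → ℝ)
    (ht : ∀ u v, |t u v| ≤ 1) (A : Finset ℕ) (hA : ∀ u v, t u v ≠ 0 → u ∈ A) (u v : ℕ → ℕ)
    (a b : ℕ → ℝ) (ha : ∀ i, |a i| ≤ 1) (hb : ∀ j, |b j| ≤ 1) :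
    ∑ i ∈ range N, ∑ j ∈ range N, W i j * a i * b j * t (u i) (v j) ≤ A.card * c := by
  have e1 : ∀ x ∈ A, ∑ i ∈ range N, ∑ j ∈ range N,
      W i j * (a i * if u i = x then 1 else 0) * (b j * t x (v j)) ≤ c := by
    intro x _
    refine h _ _ (fun i => ?_) (fun j => ?_)
    · split_ifs
      · simpa using ha i
      · simp
    · rw [abs_mul]
      exact mul_le_one₀ (hb j) (abs_nonneg _) (ht _ _)
  have e2 := sum_le_sum e1
  rw [sum_const, nsmul_eq_mul] at e2
  refine le_trans (le_of_eq ?_) e2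
  rw [sum_comm (s := A)]
  refine sum_congr rfl fun i _ => ?_
  rw [sum_comm (s := A)]
  refine sum_congr rfl fun j _ => ?_
  rw [sum_eq_single (u i)]
  · simp only [if_true]
    ring
  · intro x _ hx
    rw [if_neg (Ne.symm hx)]
    simp
  · intro h'
    have : t (u i) (v j) = 0 := by
      by_contra h0
      exact h' (hA _ _ h0)
    simp [this]

/-- A sequence of blocks with rapidly improving parameters. -/
theorem exists_blocks : ∃ (N : ℕ → ℕ) (W : ℕ → ℕ → ℕ → ℝ), ∀ n,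
    IsBlock ((∑ m ∈ range n, N m) ^ 2) (1 / ((n + 1) * ((∑ m ∈ range n, N m : ℕ) + 2)))
      (N n) (W n) := by
  choose Nf Wf h using fun (P n : ℕ) =>
    exists_block (P ^ 2) (1 / ((n + 1) * (P + 2))) (by positivity)
  let P : ℕ → ℕ := fun n => Nat.rec 0 (fun m p => p + Nf p m) n
  have hP : ∀ n, ∑ m ∈ range n, Nf (P m) m = P n := by
    intro n
    induction n with
    | zero => rfl
    | succ n ih => rw [sum_range_succ, ih]
  refine ⟨fun n => Nf (P n) n, fun n => Wf (P n) n, fun n => ?_⟩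
  rw [hP]
  exact h (P n) n

open Classical in
/-- The block diagonal matrix made of the blocks with index in `s`. -/
noncomputable def diagMat (W : ℕ → ℕ → ℕ → ℝ) (s : Set ℕ) (u v : ℕ) : ℝ :=
  if (Nat.unpair u).1 = (Nat.unpair v).1 ∧ (Nat.unpair u).1 ∈ s then
    W (Nat.unpair u).1 (Nat.unpair u).2 (Nat.unpair v).2 else 0

theorem diagMat_ne {W : ℕ → ℕ → ℕ → ℝ} {s : Set ℕ} {u v : ℕ} (h : diagMat W s u v ≠ 0) :
    (Nat.unpair u).1 = (Nat.unpair v).1 ∧ (Nat.unpair u).1 ∈ s ∧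
      W (Nat.unpair u).1 (Nat.unpair u).2 (Nat.unpair v).2 ≠ 0 := by
  unfold diagMat at h
  split_ifs at h with h1
  · exact ⟨h1.1, h1.2, h⟩
  · exact absurd rfl h

theorem diagMat_pair {W : ℕ → ℕ → ℕ → ℝ} {s : Set ℕ} {n : ℕ} (hn : n ∈ s) (i j : ℕ) :
    diagMat W s (Nat.pair n i) (Nat.pair n j) = W n i j := by
  simp [diagMat, hn]

theorem abs_diagMat_le {W : ℕ → ℕ → ℕ → ℝ} (hW : ∀ n i j, |W n i j| ≤ 1) (s : Set ℕ) (u v : ℕ) :
    |diagMat W s u v| ≤ 1 := by
  unfold diagMat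
  split_ifs
  · exact hW _ _ _
  · simp

theorem unpair_ext {x y : ℕ} (h1 : (Nat.unpair x).1 = (Nat.unpair y).1)
    (h2 : (Nat.unpair x).2 = (Nat.unpair y).2) : x = y := by
  rw [← Nat.pair_unpair x, ← Nat.pair_unpair y, h1, h2]

theorem diagMat_locTree {W : ℕ → ℕ → ℕ → ℝ} {s : Set ℕ} {K : ℕ}
    (h : ∀ m ∈ s, LocTree K (fun i j => W m i j ≠ 0)) :
    LocTree K (fun u v => diagMat W s u v ≠ 0) := by
  intro F hF hc hR
  obtain ⟨p0, hp0⟩ := hF
  set m := (Nat.unpair p0.1).1 with hm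
  have hms : m ∈ s := (diagMat_ne (hR p0 hp0)).2.1
  have h1 : LocTree K (fun u v => diagMat W s u v ≠ 0 ∧ (Nat.unpair u).1 = m) := by
    refine (h m hms).comap _ (fun u => (Nat.unpair u).2) (fun v => (Nat.unpair v).2) ?_ ?_ ?_
    · intro x y hxy
      rw [← hxy.2]
      exact (diagMat_ne hxy.1).2.2
    · intro x y x' y' h1 h2 h3
      exact unpair_ext (h1.2.trans h2.2.symm) h3
    · intro x y x' y' h1 h2 h3
      refine unpair_ext ?_ h3
      rw [← (diagMat_ne h1.1).1, ← (diagMat_ne h2.1).1, h1.2, h2.2]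
  obtain ⟨p, hp, h2⟩ := h1 (F.filter (fun p => (Nat.unpair p.1).1 = m))
    ⟨p0, mem_filter.2 ⟨hp0, rfl⟩⟩ ((card_filter_le _ _).trans hc)
    (fun p hp => ⟨hR p (mem_filter.1 hp).1, (mem_filter.1 hp).2⟩)
  obtain ⟨hpF, hpm⟩ := mem_filter.1 hp
  refine ⟨p, hpF, ?_⟩
  rcases h2 with h2 | h2
  · exact Or.inl fun q hq hqp => h2 q (mem_filter.2 ⟨hq, by rw [hqp, hpm]⟩) hqp
  · refine Or.inr fun q hq hqp => h2 q (mem_filter.2 ⟨hq, ?_⟩) hqp
    rw [(diagMat_ne (hR q hq)).1, hqp, ← (diagMat_ne (hR p hpF)).1, hpm]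

theorem main_estimate {N : ℕ → ℕ} {W : ℕ → ℕ → ℕ → ℝ}
    (h : ∀ n, IsBlock ((∑ m ∈ range n, N m) ^ 2)
      (1 / ((n + 1) * ((∑ m ∈ range n, N m : ℕ) + 2))) (N n) (W n))
    {s : Set ℕ} {n : ℕ} (hn : n ∉ s) (u v : ℕ → ℕ)
    (a b : ℕ → ℝ) (ha : ∀ i, |a i| ≤ 1) (hb : ∀ j, |b j| ≤ 1) :
    ∑ i ∈ range (N n), ∑ j ∈ range (N n), W n i j * a i * b j * diagMat W s (u i) (v j) ≤
      1 / (n + 1) * ∑ i ∈ range (N n), ∑ j ∈ range (N n), |W n i j| := by
  classical
  have hW : ∀ n i j, |W n i j| ≤ 1 := fun n => (h n).le_one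
  have hcut : CutLe (N n) (W n) _ := (h n).cut
  set M := ∑ i ∈ range (N n), ∑ j ∈ range (N n), |W n i j| with hM
  set P := ∑ m ∈ range n, N m with hP
  have e1 := hcut.tree (diagMat W (s ∩ Set.Ioi n)) (abs_diagMat_le hW _)
    (diagMat_locTree (by
      intro m hm
      refine (h m).tree.mono ?_
      rw [← sq]
      exact Nat.pow_le_pow_left
        (single_le_sum (f := N) (fun _ _ => Nat.zero_le _) (mem_range.2 hm.2)) 2)) u v a b ha hb
  set A := (range n).biUnion (fun m => (range (N m)).image (Nat.pair m)) with hA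
  have hAc : A.card ≤ P := by
    refine card_biUnion_le.trans (sum_le_sum fun m _ => ?_)
    exact card_image_le.trans (by simp)
  have e2 := hcut.small (diagMat W (s ∩ Set.Iio n)) (abs_diagMat_le hW _) A (by
      intro x y hxy
      obtain ⟨-, h2, h3⟩ := diagMat_ne hxy
      refine mem_biUnion.2 ⟨(Nat.unpair x).1, mem_range.2 h2.2, mem_image.2
        ⟨(Nat.unpair x).2, mem_range.2 ((h _).supp _ _ h3).1, Nat.pair_unpair x⟩⟩) u v a b ha hb
  have hsplit : ∀ x y, diagMat W s x y =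
      diagMat W (s ∩ Set.Ioi n) x y + diagMat W (s ∩ Set.Iio n) x y := by
    intro x y
    unfold diagMat
    by_cases h1 : (Nat.unpair x).1 = (Nat.unpair y).1 ∧ (Nat.unpair x).1 ∈ s
    · have hne : (Nat.unpair x).1 ≠ n := fun h' => hn (h' ▸ h1.2)
      rcases lt_or_gt_of_ne hne with h2 | h2
      · rw [if_pos h1, if_neg (fun h3 => lt_asymm h2 h3.2.2), if_pos ⟨h1.1, h1.2, h2⟩, zero_add]
      · rw [if_pos h1, if_pos ⟨h1.1, h1.2, h2⟩, if_neg (fun h3 => lt_asymm h2 h3.2.2), add_zero]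
    · rw [if_neg h1, if_neg (fun h3 => h1 ⟨h3.1, h3.2.1⟩), if_neg (fun h3 => h1 ⟨h3.1, h3.2.1⟩),
        add_zero]
  have hc0 := hcut.nonneg
  have e3 : (A.card : ℝ) * (1 / ((n + 1) * (P + 2)) * M) ≤ P * (1 / ((n + 1) * (P + 2)) * M) :=
    mul_le_mul_of_nonneg_right (by exact_mod_cast hAc) hc0
  have e4 : (1 : ℝ) / (n + 1) * M = 2 * (1 / ((n + 1) * (P + 2)) * M) +
      P * (1 / ((n + 1) * (P + 2)) * M) := by
    field_simp
    ring
  rw [e4]
  refine le_trans (le_of_eq ?_) (add_le_add e1 (e2.trans e3))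
  rw [← sum_add_distrib]
  refine sum_congr rfl fun i _ => ?_
  rw [← sum_add_distrib]
  refine sum_congr rfl fun j _ => ?_
  rw [hsplit]
  ring

end Pool.Agent.P.MP_38279d_an
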