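import Pool.Agent.P.MP_38279d_an.Card
import Pool.Agent.P.MP_38279d_an.Defs

set_option autoImplicit false

namespace Pool.Agent.P.MP_38279d_an

open Cardinal

theorem numClosedIdeals_l1_c0 (𝕜 : Type) [RCLike 𝕜] :
    numClosedIdeals 𝕜 (L1 𝕜) (C0 𝕜) = 2 ^ 𝔠 := by
  apply le_antisymm
  · refine (mk_subtype_le _).trans ?_
    rw [mk_set]
    exact power_le_power_left two_ne_zero (mk_l1_c0_le 𝕜)
  · obtain ⟨f, hf, h⟩ := exists_ideals_l1_c0 𝕜
    rw [← mk_set_set_nat]
    exact mk_le_of_injective (f := fun U => ⟨f U, (h U).1, (f U).zero_mem,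
      fun _ hS _ hT => (f U).add_mem hS hT, fun c _ hT => (f U).smul_mem c hT,
      fun T hT A B => (h U).2 T hT B A⟩)
      fun U V hUV => hf (SetLike.coe_injective (congrArg Subtype.val hUV))

end Pool.Agent.P.MP_38279d_an
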