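import Mathlib

set_option autoImplicit false

namespace Pool.Agent.P.MP_38279d_an

open Finset

/-- Every nonempty set of at most `K` edges of the bipartite relation `R` has an edge that is the
only edge of the set at one of its endpoints. -/
def LocTree {α β : Type*} (K : ℕ) (R : α → β → Prop) : Prop :=
  ∀ F : Finset (α × β), F.Nonempty → F.card ≤ K → (∀ p ∈ F, R p.1 p.2) →
    ∃ p ∈ F, (∀ q ∈ F, q.1 = p.1 → q = p) ∨ (∀ q ∈ F, q.2 = p.2 → q = p)

/-- Stronger form: the leaf can be chosen different from a prescribed vertex. -/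
def LocTree2 {α β : Type*} (K : ℕ) (R : α → β → Prop) : Prop :=
  ∀ F : Finset (α × β), F.Nonempty → F.card ≤ K → (∀ p ∈ F, R p.1 p.2) → ∀ w : α ⊕ β,
    ∃ p ∈ F, ((∀ q ∈ F, q.1 = p.1 → q = p) ∧ w ≠ Sum.inl p.1) ∨
      ((∀ q ∈ F, q.2 = p.2 → q = p) ∧ w ≠ Sum.inr p.2)

theorem LocTree2.locTree {α β : Type*} {K : ℕ} {R : α → β → Prop} (h : LocTree2 K R) :
    LocTree K R := by
  intro F hF hc hR
  obtain ⟨p0, hp0⟩ := hF
  obtain ⟨p, hp, h1 | h1⟩ := h F ⟨p0, hp0⟩ hc hR (Sum.inl p0.1)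
  · exact ⟨p, hp, Or.inl h1.1⟩
  · exact ⟨p, hp, Or.inr h1.1⟩

/-- The homology double cover of a bipartite relation. -/
def liftRel {α : Type} [DecidableEq α] (R : α → α → Prop) :
    α × (α × α → ZMod 2) → α × (α × α → ZMod 2) → Prop :=
  fun a b => R a.1 b.1 ∧ b.2 = a.2 + Pi.single (a.1, b.1) 1

section lift

variable {α : Type} [DecidableEq α] {R : α → α → Prop}

theorem lift_left {p q : (α × (α × α → ZMod 2)) × (α × (α × α → ZMod 2))}
    (hp : liftRel R p.1 p.2) (hq : liftRel R q.1 q.2) (h1 : q.1 = p.1) (h2 : q.2.1 = p.2.1) :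
    q = p := by
  obtain ⟨⟨a, z⟩, ⟨b, y⟩⟩ := p
  obtain ⟨⟨a', z'⟩, ⟨b', y'⟩⟩ := q
  simp only [liftRel, Prod.mk.injEq] at *
  obtain ⟨rfl, rfl⟩ := h1
  subst h2
  exact ⟨⟨rfl, rfl⟩, rfl, by rw [hp.2, hq.2]⟩

theorem lift_right {p q : (α × (α × α → ZMod 2)) × (α × (α × α → ZMod 2))}
    (hp : liftRel R p.1 p.2) (hq : liftRel R q.1 q.2) (h1 : q.2 = p.2) (h2 : q.1.1 = p.1.1) :
    q = p := by
  obtain ⟨⟨a, z⟩, ⟨b, y⟩⟩ := p
  obtain ⟨⟨a', z'⟩, ⟨b', y'⟩⟩ := q
  simp only [liftRel, Prod.mk.injEq] at *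
  obtain ⟨rfl, rfl⟩ := h1
  subst h2
  refine ⟨⟨rfl, ?_⟩, rfl, rfl⟩
  have := hp.2.symm.trans hq.2
  exact (add_right_cancel this).symm

/-- If the projection of `F` is small, `F` has a leaf away from `w`. -/
theorem lift_leaf {k : ℕ} (h : LocTree2 k R)
    (F : Finset ((α × (α × α → ZMod 2)) × (α × (α × α → ZMod 2)))) (hF : F.Nonempty)
    (hc : (F.image (fun p => (p.1.1, p.2.1))).card ≤ k) (hR : ∀ p ∈ F, liftRel R p.1 p.2)
    (w : (α × (α × α → ZMod 2)) ⊕ (α × (α × α → ZMod 2))) :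
    ∃ p ∈ F, ((∀ q ∈ F, q.1 = p.1 → q = p) ∧ w ≠ Sum.inl p.1) ∨
      ((∀ q ∈ F, q.2 = p.2 → q = p) ∧ w ≠ Sum.inr p.2) := by
  obtain ⟨e, he, h1⟩ := h (F.image (fun p => (p.1.1, p.2.1))) (hF.image _) hc
    (by
      intro e he
      obtain ⟨p, hp, rfl⟩ := mem_image.1 he
      exact (hR p hp).1) (w.map Prod.fst Prod.fst)
  obtain ⟨p, hp, rfl⟩ := mem_image.1 he
  refine ⟨p, hp, ?_⟩
  rcases h1 with ⟨h1, h2⟩ | ⟨h1, h2⟩
  · refine Or.inl ⟨fun q hq hqp => ?_, ?_⟩
    · have := h1 (q.1.1, q.2.1) (mem_image_of_mem _ hq) (by simp [hqp])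
      exact lift_left (hR p hp) (hR q hq) hqp (Prod.ext_iff.1 this).2
    · rintro rfl
      exact h2 rfl
  · refine Or.inr ⟨fun q hq hqp => ?_, ?_⟩
    · have := h1 (q.1.1, q.2.1) (mem_image_of_mem _ hq) (by simp [hqp])
      exact lift_right (hR p hp) (hR q hq) hqp (Prod.ext_iff.1 this).1
    · rintro rfl
      exact h2 rfl

theorem lift_locTree2 {k : ℕ} (h : LocTree2 k R) : LocTree2 (k + 1) (liftRel R) := by
  classical
  intro F hF hc hR w
  by_cases hsmall : (F.image (fun p => (p.1.1, p.2.1))).card ≤ k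
  · exact lift_leaf h F hF hsmall hR w
  have hinj : Set.InjOn (fun p : (α × (α × α → ZMod 2)) × (α × (α × α → ZMod 2)) =>
      (p.1.1, p.2.1)) F := by
    apply Finset.injOn_of_card_image_eq
    have := Finset.card_image_le (s := F) (f := fun p => (p.1.1, p.2.1))
    omega
  obtain ⟨p0, hp0⟩ := hF
  set e : α × α := (p0.1.1, p0.2.1) with he
  -- edges other than `p0` keep the `e`-coordinate
  have hkeep : ∀ q ∈ F, q ≠ p0 → q.2.2 e = q.1.2 e := by
    intro q hq hne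
    have h2 := (hR q hq).2
    have hne' : e ≠ (q.1.1, q.2.1) := fun h' => hne (hinj hq hp0 h'.symm)
    rw [h2, Pi.add_apply, Pi.single_eq_of_ne hne', add_zero]
  have hflip : p0.2.2 e = p0.1.2 e + 1 := by
    have h2 := (hR p0 hp0).2
    rw [h2, Pi.add_apply, Pi.single_eq_same]
  have hz : ∀ c : ZMod 2, c + 1 ≠ c := by decide
  have hz2 : ∀ c d : ZMod 2, c ≠ d → c = d + 1 := by decide
  -- the side of a vertex
  let side : (α × (α × α → ZMod 2)) ⊕ (α × (α × α → ZMod 2)) → ZMod 2 :=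
    fun v => Sum.elim (fun a => a.2 e) (fun a => a.2 e) v
  -- general step: `c` is a side not containing `w`, `v0` the endpoint of `p0` on side `c`
  have key : ∀ (c : ZMod 2) (v0 : (α × (α × α → ZMod 2)) ⊕ (α × (α × α → ZMod 2))),
      side w ≠ c → (∀ q ∈ F, q ≠ p0 → q.1.2 e = c → q.1 = p0.1 → v0 = Sum.inl q.1) →
      (∀ q ∈ F, q ≠ p0 → q.1.2 e = c → q.2 = p0.2 → v0 = Sum.inr q.2) →
      (∃ q ∈ F, q ≠ p0 ∧ q.1.2 e = c) →
      ∃ p ∈ F, ((∀ q ∈ F, q.1 = p.1 → q = p) ∧ w ≠ Sum.inl p.1) ∨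
        ((∀ q ∈ F, q.2 = p.2 → q = p) ∧ w ≠ Sum.inr p.2) := by
    intro c v0 hw hl hr hex
    set F0 := F.filter (fun q => q ≠ p0 ∧ q.1.2 e = c) with hF0
    have hF0ne : F0.Nonempty := by
      obtain ⟨q, hq, h1, h2⟩ := hex
      exact ⟨q, mem_filter.2 ⟨hq, h1, h2⟩⟩
    have hF0c : F0.card ≤ k := by
      have : F0 ⊆ F.erase p0 := by
        intro q hq
        rw [mem_filter] at hq
        exact mem_erase.2 ⟨hq.2.1, hq.1⟩
      have h1 := card_le_card this
      rw [card_erase_of_mem hp0] at h1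
      omega
    obtain ⟨p, hp, h1⟩ := lift_leaf h F0 hF0ne (card_image_le.trans hF0c)
      (fun q hq => hR q (mem_filter.1 hq).1) v0
    obtain ⟨hpF, hpne, hpc⟩ := mem_filter.1 hp
    refine ⟨p, hpF, ?_⟩
    rcases h1 with ⟨h1, h2⟩ | ⟨h1, h2⟩
    · refine Or.inl ⟨fun q hq hqp => ?_, ?_⟩
      · by_cases hq0 : q = p0
        · subst hq0
          exact absurd (hl p hpF hpne hpc hqp.symm) h2
        · exact h1 q (mem_filter.2 ⟨hq, hq0, by rw [hqp, hpc]⟩) hqp
      · rintro rfl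
        exact hw hpc
    · refine Or.inr ⟨fun q hq hqp => ?_, ?_⟩
      · by_cases hq0 : q = p0
        · subst hq0
          exact absurd (hr p hpF hpne hpc hqp.symm) h2
        · refine h1 q (mem_filter.2 ⟨hq, hq0, ?_⟩) hqp
          rw [← hkeep q hq hq0, hqp, hkeep p hpF hpne, hpc]
      · rintro rfl
        apply hw
        show p.2.2 e = c
        rw [hkeep p hpF hpne, hpc]
  by_cases hw : side w = p0.1.2 e
  · -- use the right endpoint of `p0`
    have hw' : side w ≠ p0.2.2 e := by rw [hw, hflip]; exact (hz _).symm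
    by_cases hleaf : ∀ q ∈ F, q.2 = p0.2 → q = p0
    · refine ⟨p0, hp0, Or.inr ⟨hleaf, ?_⟩⟩
      rintro rfl
      exact hw' rfl
    · push Not at hleaf
      obtain ⟨q, hq, hq2, hqne⟩ := hleaf
      refine key (p0.2.2 e) (Sum.inr p0.2) hw' ?_ ?_ ⟨q, hq, hqne, ?_⟩
      · intro q' _ _ h1 h2
        rw [h2, hflip] at h1
        exact absurd h1.symm (hz _)
      · intro q' _ _ _ h2
        rw [h2]
      · rw [← hkeep q hq hqne, hq2]
  · by_cases hleaf : ∀ q ∈ F, q.1 = p0.1 → q = p0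
    · refine ⟨p0, hp0, Or.inl ⟨hleaf, ?_⟩⟩
      rintro rfl
      exact hw rfl
    · push Not at hleaf
      obtain ⟨q, hq, hq1, hqne⟩ := hleaf
      refine key (p0.1.2 e) (Sum.inl p0.1) hw ?_ ?_ ⟨q, hq, hqne, by rw [hq1]⟩
      · intro q' _ _ _ h2
        rw [h2]
      · intro q' hq' hne h1 h2
        rw [← hkeep q' hq' hne, h2, hflip] at h1
        exact absurd h1 (hz _)

open Classical in
theorem lift_card [Fintype α] :
    (univ.filter (fun p : (α × (α × α → ZMod 2)) × (α × (α × α → ZMod 2)) =>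
      liftRel R p.1 p.2)).card =
    (univ.filter (fun p : α × α => R p.1 p.2)).card * Fintype.card (α × α → ZMod 2) := by
  rw [← Finset.card_univ, ← Finset.card_product]
  symm
  apply Finset.card_bij (fun x _ => ((x.1.1, x.2), (x.1.2, x.2 + Pi.single (x.1.1, x.1.2) 1)))
  · intro x hx
    simp only [mem_product, mem_filter, mem_univ, true_and, and_true] at hx
    exact mem_filter.2 ⟨mem_univ _, hx, rfl⟩
  · intro x _ y _ hxy
    simp only [Prod.mk.injEq] at hxy
    exact Prod.ext (Prod.ext hxy.1.1 hxy.2.1) hxy.1.2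
  · intro p hp
    replace hp := (mem_filter.1 hp).2
    refine ⟨((p.1.1, p.2.1), p.1.2), ?_, ?_⟩
    · simp only [mem_product, mem_filter, mem_univ, true_and, and_true]
      exact hp.1
    · exact Prod.ext rfl (Prod.ext rfl hp.2.symm)

end lift

open Classical in
/-- Bipartite graphs of average degree `d` that look like forests on every set of `K` edges. -/
theorem exists_graph (d K : ℕ) (hd : 0 < d) :
    ∃ (α : Type) (_ : Fintype α) (R : α → α → Prop), 0 < Fintype.card α ∧ LocTree2 K R ∧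
      (univ.filter (fun p : α × α => R p.1 p.2)).card = d * Fintype.card α := by
  induction K with
  | zero =>
    refine ⟨Fin d, inferInstance, fun _ _ => True, by simpa using hd, ?_, by simp⟩
    intro F hF hc
    exact absurd (card_pos.2 hF) (by omega)
  | succ k ih =>
    obtain ⟨α, _, R, hpos, hR, hcard⟩ := ih
    refine ⟨α × (α × α → ZMod 2), inferInstance, liftRel R, ?_, lift_locTree2 hR, ?_⟩
    · rw [Fintype.card_prod]
      exact Nat.mul_pos hpos Fintype.card_pos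
    · have := lift_card (R := R)
      rw [Fintype.card_prod α, ← mul_assoc, ← hcard]
      convert this

end Pool.Agent.P.MP_38279d_an
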