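import Pool.Agent.P.MP_38279d_an.Estimate

set_option autoImplicit false

namespace Pool.Agent.P.MP_38279d_an

open Finset Filter Topology

variable {𝕜 : Type*} [RCLike 𝕜]

/-- The sequence space of absolutely summable sequences. -/
abbrev L1 (𝕜 : Type*) [RCLike 𝕜] : Type _ := lp (fun _ : ℕ => 𝕜) (1 : ENNReal)

/-- The sequence space of null sequences. -/
abbrev C0 (𝕜 : Type*) [RCLike 𝕜] : Type _ := ZeroAtInftyContinuousMap ℕ 𝕜

theorem c0_apply_le (z : C0 𝕜) (v : ℕ) : ‖z v‖ ≤ ‖z‖ := by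
  rw [← ZeroAtInftyContinuousMap.norm_toBCF_eq_norm]
  exact z.toBCF.norm_coe_le_norm v

theorem c0_norm_le (z : C0 𝕜) {C : ℝ} (hC : 0 ≤ C) (h : ∀ v, ‖z v‖ ≤ C) : ‖z‖ ≤ C := by
  rw [← ZeroAtInftyContinuousMap.norm_toBCF_eq_norm]
  exact (BoundedContinuousFunction.norm_le hC).2 h

theorem c0_exists (z : C0 𝕜) : ∃ v, ‖z‖ ≤ 2 * ‖z v‖ := by
  by_contra h
  push Not at h
  have h0 := h 0
  have h1 := norm_nonneg (z 0)
  have := c0_norm_le z (C := ‖z‖ / 2) (by positivity) (fun v => by linarith [h v])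
  linarith

/-- Evaluation at a coordinate. -/
noncomputable def evalC0 (v : ℕ) : C0 𝕜 →L[𝕜] 𝕜 :=
  LinearMap.mkContinuous
    { toFun := fun z => z v
      map_add' := fun _ _ => rfl
      map_smul' := fun _ _ => rfl } 1 (fun z => by simpa using c0_apply_le z v)

@[simp] theorem evalC0_apply (v : ℕ) (z : C0 𝕜) : evalC0 v z = z v := rfl

theorem exists_op_of_cols {Z : Type*} [NormedAddCommGroup Z] [NormedSpace 𝕜 Z] [CompleteSpace Z]
    (col : ℕ → Z) (hcol : ∀ u, ‖col u‖ ≤ 1) :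
    ∃ T : L1 𝕜 →L[𝕜] Z, ∀ u, T (lp.single 1 u 1) = col u := by
  refine ⟨(lp.tsumCLM 𝕜 ℕ Z).comp (lp.mapCLM 1
    (fun u => ContinuousLinearMap.toSpanSingleton 𝕜 (col u)) zero_le_one
    (fun u => by rw [ContinuousLinearMap.norm_toSpanSingleton]; exact hcol u)), fun u => ?_⟩
  simp only [ContinuousLinearMap.comp_apply, lp.tsumCLM_apply, lp.mapCLM_apply_coe,
    ContinuousLinearMap.toSpanSingleton_apply]
  rw [tsum_eq_single u]
  · simp
  · intro i hi
    rw [lp.single_apply_ne _ _ _ hi, zero_smul]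

theorem exists_op (t : ℕ → ℕ → ℝ) (ht : ∀ u v, |t u v| ≤ 1)
    (hfin : ∀ u, {v | t u v ≠ 0}.Finite) :
    ∃ T : L1 𝕜 →L[𝕜] C0 𝕜, ∀ u v, T (lp.single 1 u 1) v = (t u v : 𝕜) := by
  let col : ℕ → C0 𝕜 := fun u =>
    { toFun := fun v => (t u v : 𝕜)
      continuous_toFun := continuous_of_discreteTopology
      zero_at_infty' := by
        rw [cocompact_eq_cofinite]
        refine tendsto_nhds_of_eventually_eq ?_
        refine (hfin u).compl_mem_cofinite |> fun h => Filter.mem_of_superset h ?_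
        intro v hv
        simp only [Set.mem_compl_iff, Set.mem_ofPred_eq, not_not] at hv
        simp [hv] }
  obtain ⟨T, hT⟩ := exists_op_of_cols (𝕜 := 𝕜) col (fun u =>
    c0_norm_le _ zero_le_one (fun v => by
      show ‖(t u v : 𝕜)‖ ≤ 1
      rw [RCLike.norm_ofReal]
      exact ht u v))
  exact ⟨T, fun u v => by rw [hT]; rfl⟩

theorem l1_bound (g : L1 𝕜 →L[𝕜] 𝕜) {M : ℝ} (hM : ∀ u, ‖g (lp.single 1 u 1)‖ ≤ M) (b : L1 𝕜) :
    ‖g b‖ ≤ ‖b‖ * M := by
  have h1 := (lp.hasSum_single (p := 1) (by simp) b).mapL g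
  have h2 : HasSum (fun i => ‖b i‖) ‖b‖ := by
    simpa using lp.hasSum_norm (p := 1) (by simp) b
  refine h1.norm_le_of_bounded (h2.mul_right M) fun i => ?_
  have : lp.single (E := fun _ : ℕ => 𝕜) 1 i (b i) = b i • lp.single 1 i (1 : 𝕜) := by
    rw [← lp.single_smul, smul_eq_mul, mul_one]
  rw [this, map_smul, norm_smul]
  exact mul_le_mul_of_nonneg_left (hM i) (norm_nonneg _)

theorem l1_exists (g : L1 𝕜 →L[𝕜] 𝕜) (b : L1 𝕜) {R : ℝ} (hb : ‖b‖ ≤ R) :
    ∃ u, ‖g b‖ ≤ 2 * R * ‖g (lp.single 1 u 1)‖ := by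
  by_contra h
  push Not at h
  have hR : 0 ≤ R := (norm_nonneg _).trans hb
  have h0 : 0 < ‖g b‖ := lt_of_le_of_lt (by positivity) (h 0)
  rcases hR.eq_or_lt with rfl | hR
  · have : b = 0 := norm_le_zero_iff.1 hb
    simp [this] at h0
  have h1 := l1_bound g (M := ‖g b‖ / (2 * R)) (fun u => by
    rw [le_div_iff₀ (by positivity)]
    linarith [h u]) b
  have h2 : ‖b‖ * (‖g b‖ / (2 * R)) ≤ R * (‖g b‖ / (2 * R)) :=
    mul_le_mul_of_nonneg_right hb (by positivity)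
  have h3 : R * (‖g b‖ / (2 * R)) = ‖g b‖ / 2 := by field_simp
  linarith

section small

variable {X Y X' Y' : Type*} [NormedAddCommGroup X] [NormedSpace 𝕜 X] [NormedAddCommGroup Y]
  [NormedSpace 𝕜 Y] [NormedAddCommGroup X'] [NormedSpace 𝕜 X'] [NormedAddCommGroup Y']
  [NormedSpace 𝕜 Y']

/-- The operator `T` has seminorm at most `ε` with respect to the matrix `W`. -/
def Small (N : ℕ) (W : ℕ → ℕ → ℝ) (T : X →L[𝕜] Y) (ε : ℝ) : Prop :=
  ∀ (R : ℝ) (b : ℕ → X), (∀ i, ‖b i‖ ≤ R) →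
    ∑ j ∈ range N, ‖∑ i ∈ range N, (W i j : 𝕜) • T (b i)‖ ≤
      ε * R * ∑ i ∈ range N, ∑ j ∈ range N, |W i j|

variable {N : ℕ} {W : ℕ → ℕ → ℝ}

theorem mass_nonneg (N : ℕ) (W : ℕ → ℕ → ℝ) : 0 ≤ ∑ i ∈ range N, ∑ j ∈ range N, |W i j| :=
  sum_nonneg fun _ _ => sum_nonneg fun _ _ => abs_nonneg _

theorem Small.mono {T : X →L[𝕜] Y} {ε δ : ℝ} (h : Small N W T ε) (hle : ε ≤ δ) :
    Small N W T δ := by
  intro R b hb
  have hR : 0 ≤ R := (norm_nonneg _).trans (hb 0)
  exact (h R b hb).trans (mul_le_mul_of_nonneg_right (mul_le_mul_of_nonneg_right hle hR)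
    (mass_nonneg N W))

theorem small_norm (T : X →L[𝕜] Y) : Small N W T ‖T‖ := by
  intro R b hb
  rw [sum_comm, mul_sum]
  refine sum_le_sum fun j _ => ?_
  rw [mul_sum]
  refine (norm_sum_le _ _).trans (sum_le_sum fun i _ => ?_)
  rw [norm_smul, RCLike.norm_ofReal, mul_comm]
  exact mul_le_mul_of_nonneg_right (T.le_of_opNorm_le_of_le le_rfl (hb i)) (abs_nonneg _)

theorem Small.add {T S : X →L[𝕜] Y} {ε δ : ℝ} (h : Small N W T ε) (h' : Small N W S δ) :
    Small N W (T + S) (ε + δ) := by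
  intro R b hb
  rw [add_mul, add_mul]
  refine le_trans ?_ (add_le_add (h R b hb) (h' R b hb))
  rw [← sum_add_distrib]
  refine sum_le_sum fun j _ => ?_
  simp only [add_apply, smul_add, sum_add_distrib]
  exact norm_add_le _ _

theorem Small.comp {T : X →L[𝕜] Y} {ε : ℝ} (h : Small N W T ε) (A : X' →L[𝕜] X)
    (B : Y →L[𝕜] Y') : Small N W (B.comp (T.comp A)) (‖B‖ * (ε * ‖A‖)) := by
  intro R b hb
  have h1 := h (‖A‖ * R) (fun i => A (b i)) (fun i => A.le_of_opNorm_le_of_le le_rfl (hb i))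
  have h2 := mul_le_mul_of_nonneg_left h1 (norm_nonneg B)
  refine le_trans ?_ (h2.trans (le_of_eq (by ring)))
  rw [mul_sum]
  refine sum_le_sum fun j _ => ?_
  refine le_trans (le_of_eq ?_) (B.le_opNorm _)
  simp [map_sum]

end small

theorem small_diag {N : ℕ → ℕ} {W : ℕ → ℕ → ℕ → ℝ}
    (h : ∀ n, IsBlock ((∑ m ∈ range n, N m) ^ 2)
      (1 / ((n + 1) * ((∑ m ∈ range n, N m : ℕ) + 2))) (N n) (W n))
    {s : Set ℕ} {n : ℕ} (hn : n ∉ s) (T : L1 𝕜 →L[𝕜] C0 𝕜)
    (hT : ∀ u v, T (lp.single 1 u 1) v = (diagMat W s u v : 𝕜)) :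
    Small (N n) (W n) T (8 / (n + 1)) := by
  intro R b hb
  have hR : 0 ≤ R := (norm_nonneg _).trans (hb 0)
  choose v hv using fun j => c0_exists (∑ i ∈ range (N n), (W n i j : 𝕜) • T (b i))
  choose τ hτ hτ' using fun j => RCLike.exists_norm_eq_mul_self
    ((∑ i ∈ range (N n), (W n i j : 𝕜) • T (b i)) (v j))
  let g : ℕ → L1 𝕜 →L[𝕜] 𝕜 := fun i =>
    ∑ j ∈ range (N n), (τ j * W n i j) • (evalC0 (v j)).comp T
  have hg : ∀ i x, g i x = ∑ j ∈ range (N n), τ j * W n i j * T x (v j) := by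
    intro i x
    simp [g]
  choose u hu using fun i => l1_exists (g i) (b i) (hb i)
  choose σ hσ hσ' using fun i => RCLike.exists_norm_eq_mul_self (g i (lp.single 1 (u i) 1))
  have e1 : ∑ j ∈ range (N n), ‖(∑ i ∈ range (N n), (W n i j : 𝕜) • T (b i)) (v j)‖ ≤
      ∑ i ∈ range (N n), ‖g i (b i)‖ := by
    have : ((∑ j ∈ range (N n), ‖(∑ i ∈ range (N n), (W n i j : 𝕜) • T (b i)) (v j)‖ : ℝ) : 𝕜) =
        ∑ i ∈ range (N n), g i (b i) := by
      push_cast
      simp_rw [hτ', hg]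
      rw [sum_comm]
      refine sum_congr rfl fun j _ => ?_
      rw [← evalC0_apply, map_sum, mul_sum]
      refine sum_congr rfl fun i _ => ?_
      simp [mul_assoc]
    refine le_trans ?_ (norm_sum_le _ _)
    rw [← this, RCLike.norm_ofReal]
    exact le_abs_self _
  have hre : ∀ z : 𝕜, ‖z‖ = 1 → |RCLike.re z| ≤ 1 := fun z hz => hz ▸ RCLike.abs_re_le_norm z
  have him : ∀ z : 𝕜, ‖z‖ = 1 → |RCLike.im z| ≤ 1 := fun z hz => hz ▸ RCLike.abs_im_le_norm z
  have e2 := main_estimate h hn u v (fun i => RCLike.re (σ i)) (fun j => RCLike.re (τ j))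
    (fun i => hre _ (hσ i)) (fun j => hre _ (hτ j))
  have e3 := main_estimate h hn u v (fun i => -RCLike.im (σ i)) (fun j => RCLike.im (τ j))
    (fun i => by rw [abs_neg]; exact him _ (hσ i)) (fun j => him _ (hτ j))
  have e4 : ∑ i ∈ range (N n), ‖g i (lp.single 1 (u i) 1)‖ ≤
      2 * (1 / (n + 1) * ∑ i ∈ range (N n), ∑ j ∈ range (N n), |W n i j|) := by
    rw [two_mul]
    refine le_trans (le_of_eq ?_) (add_le_add e2 e3)
    rw [← sum_add_distrib]
    refine sum_congr rfl fun i _ => ?_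
    have := congrArg RCLike.re (hσ' i)
    rw [RCLike.ofReal_re] at this
    rw [this, hg, mul_sum, map_sum, ← sum_add_distrib]
    refine sum_congr rfl fun j _ => ?_
    rw [hT]
    simp only [RCLike.mul_re, RCLike.mul_im, RCLike.ofReal_re, RCLike.ofReal_im]
    ring
  calc ∑ j ∈ range (N n), ‖∑ i ∈ range (N n), (W n i j : 𝕜) • T (b i)‖
      ≤ ∑ j ∈ range (N n), 2 * ‖(∑ i ∈ range (N n), (W n i j : 𝕜) • T (b i)) (v j)‖ :=
        sum_le_sum fun j _ => hv j
    _ ≤ 2 * ∑ i ∈ range (N n), ‖g i (b i)‖ := by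
        rw [← mul_sum]
        linarith
    _ ≤ 2 * ∑ i ∈ range (N n), 2 * R * ‖g i (lp.single 1 (u i) 1)‖ :=
        mul_le_mul_of_nonneg_left (sum_le_sum fun i _ => hu i) (by norm_num)
    _ ≤ 2 * (2 * R * (2 * (1 / (n + 1) * ∑ i ∈ range (N n), ∑ j ∈ range (N n), |W n i j|))) := by
        rw [← mul_sum]
        exact mul_le_mul_of_nonneg_left (mul_le_mul_of_nonneg_left e4 (by positivity))
          (by norm_num)
    _ = _ := by ring

/-- The code of the first `k` digits of `r`. -/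
noncomputable def code (r : Set ℕ) (k : ℕ) : ℕ := by
  classical exact Nat.pair k (Encodable.encode ((range k).filter (· ∈ r)))

theorem code_fst {r q : Set ℕ} {k l : ℕ} (h : code r k = code q l) : k = l :=
  (Nat.pair_eq_pair.1 h).1

theorem tendsto_code (r : Set ℕ) : Tendsto (code r) atTop atTop :=
  Function.Injective.nat_tendsto_atTop fun _ _ h => code_fst h

theorem eventually_code {r q : Set ℕ} (h : r ≠ q) :
    ∀ᶠ k in atTop, code r k ∉ Set.range (code q) := by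
  classical
  obtain ⟨x, hx⟩ : ∃ x, ¬ (x ∈ r ↔ x ∈ q) := by
    by_contra h'
    push Not at h'
    exact h (Set.ext fun x => by simpa using h' x)
  filter_upwards [eventually_gt_atTop x] with k hk
  rintro ⟨l, hl⟩
  obtain rfl := code_fst hl
  have h1 := Encodable.encode_injective (Nat.pair_eq_pair.1 hl).2
  have h2 := Finset.ext_iff.1 h1 x
  simp only [mem_filter, mem_range, hk, true_and] at h2
  exact hx h2.symm

section ideals

variable (𝕜) (X Y : Type*) [NormedAddCommGroup X] [NormedSpace 𝕜 X] [NormedAddCommGroup Y]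
  [NormedSpace 𝕜 Y]

theorem small_comp_eventually {X Y X' Y' : Type*} [NormedAddCommGroup X] [NormedSpace 𝕜 X]
    [NormedAddCommGroup Y] [NormedSpace 𝕜 Y] [NormedAddCommGroup X'] [NormedSpace 𝕜 X']
    [NormedAddCommGroup Y'] [NormedSpace 𝕜 Y'] {N : ℕ → ℕ} {W : ℕ → ℕ → ℕ → ℝ}
    {T : X →L[𝕜] Y} (h : ∀ ε > 0, ∀ᶠ k in atTop, Small (N k) (W k) T ε)
    (A : X' →L[𝕜] X) (B : Y →L[𝕜] Y') :
    ∀ ε > 0, ∀ᶠ k in atTop, Small (N k) (W k) (B.comp (T.comp A)) ε := by
  intro ε hε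
  have hp : 0 < ‖B‖ * ‖A‖ + 1 := by positivity
  filter_upwards [h (ε / (‖B‖ * ‖A‖ + 1)) (by positivity)] with k hk
  refine (hk.comp A B).mono ?_
  have : ‖B‖ * (ε / (‖B‖ * ‖A‖ + 1) * ‖A‖) = ε * (‖B‖ * ‖A‖) / (‖B‖ * ‖A‖ + 1) := by ring
  rw [this, div_le_iff₀ hp]
  nlinarith

/-- The ideal attached to a family `U` of branches. -/
def idealOf (N : ℕ → ℕ) (W : ℕ → ℕ → ℕ → ℝ) (U : Set (Set ℕ)) : Submodule 𝕜 (X →L[𝕜] Y) where
  carrier := {T | ∀ r ∈ U, ∀ ε > 0, ∀ᶠ k in atTop, Small (N (code r k)) (W (code r k)) T ε}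
  zero_mem' := fun r _ ε hε => Eventually.of_forall fun k =>
    (small_norm 0).mono (by simpa using hε.le)
  add_mem' := by
    intro T S hT hS r hr ε hε
    filter_upwards [hT r hr (ε / 2) (by positivity), hS r hr (ε / 2) (by positivity)] with k h1 h2
    simpa using h1.add h2
  smul_mem' := by
    intro c T hT r hr
    have := small_comp_eventually 𝕜 (N := fun k => N (code r k)) (W := fun k => W (code r k))
      (hT r hr) (ContinuousLinearMap.id 𝕜 X) (c • ContinuousLinearMap.id 𝕜 Y)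
    simpa using this

theorem isClosed_idealOf (N : ℕ → ℕ) (W : ℕ → ℕ → ℕ → ℝ) (U : Set (Set ℕ)) :
    IsClosed (idealOf 𝕜 X Y N W U : Set (X →L[𝕜] Y)) := by
  apply isClosed_of_closure_subset
  intro T hT r hr ε hε
  obtain ⟨S, hS, hd⟩ := Metric.mem_closure_iff.1 hT (ε / 2) (by positivity)
  filter_upwards [hS r hr (ε / 2) (by positivity)] with k hk
  have := hk.add (small_norm (T - S))
  rw [add_sub_cancel] at this
  refine this.mono ?_
  rw [dist_eq_norm] at hd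
  linarith

end ideals

/-- Main theorem: if `X` maps onto the unit vector basis of `ℓ1` boundedly and `c0` embeds in `Y`,
there are `2 ^ 𝔠` closed ideals of operators from `X` to `Y`. -/
theorem exists_ideals (X Y : Type*) [NormedAddCommGroup X] [NormedSpace 𝕜 X]
    [NormedAddCommGroup Y] [NormedSpace 𝕜 Y] (P : X →L[𝕜] L1 𝕜) (C : ℝ) (x : ℕ → X)
    (hx : ∀ u, ‖x u‖ ≤ C) (hP : ∀ u, P (x u) = lp.single 1 u 1)
    (J : C0 𝕜 →L[𝕜] Y) (D : ℝ) (hJ : ∀ z, ‖z‖ ≤ D * ‖J z‖) :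
    ∃ f : Set (Set ℕ) → Submodule 𝕜 (X →L[𝕜] Y), Function.Injective f ∧
      ∀ U, IsClosed (f U : Set (X →L[𝕜] Y)) ∧
        ∀ T ∈ f U, ∀ (A : X →L[𝕜] X) (B : Y →L[𝕜] Y), B.comp (T.comp A) ∈ f U := by
  obtain ⟨N, W, h⟩ := exists_blocks
  have hop : ∀ q : Set ℕ, ∃ T : L1 𝕜 →L[𝕜] C0 𝕜,
      ∀ u v, T (lp.single 1 u 1) v = (diagMat W (Set.range (code q)) u v : 𝕜) := by
    intro q
    refine exists_op _ (abs_diagMat_le (fun n => (h n).le_one) _) fun u => ?_
    refine ((range (N (Nat.unpair u).1)).image (Nat.pair (Nat.unpair u).1)).finite_toSet.subset ?_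
    intro v hv
    obtain ⟨h1, -, h3⟩ := diagMat_ne hv
    refine mem_coe.2 (mem_image.2 ⟨(Nat.unpair v).2, mem_range.2 ((h _).supp _ _ h3).2, ?_⟩)
    rw [h1, Nat.pair_unpair]
  choose T hT using hop
  have hmem : ∀ (q : Set ℕ) (U : Set (Set ℕ)),
      J.comp ((T q).comp P) ∈ idealOf 𝕜 X Y N W U ↔ q ∉ U := by
    intro q U
    constructor
    · intro hq hU
      have hp : 0 < |D| * |C| + 1 := by positivity
      obtain ⟨k, hk⟩ := (hq q hU (1 / (|D| * |C| + 1)) (by positivity)).exists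
      set n := code q k with hn
      have h1 := hk |C| (fun i => x (Nat.pair n i)) (fun i => (hx _).trans (le_abs_self C))
      have h2 : ∑ i ∈ range (N n), ∑ j ∈ range (N n), |W n i j| ≤ |D| *
          ∑ j ∈ range (N n), ‖∑ i ∈ range (N n),
            (W n i j : 𝕜) • (J.comp ((T q).comp P)) (x (Nat.pair n i))‖ := by
        rw [sum_comm, mul_sum]
        refine sum_le_sum fun j _ => ?_
        set z : C0 𝕜 := ∑ i ∈ range (N n), (W n i j : 𝕜) • T q (lp.single 1 (Nat.pair n i) 1)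
          with hz
        have e1 : ∑ i ∈ range (N n), (W n i j : 𝕜) • (J.comp ((T q).comp P)) (x (Nat.pair n i)) =
            J z := by
          simp [hz, hP, map_sum]
        have e2 : z (Nat.pair n j) = ((∑ i ∈ range (N n), |W n i j| : ℝ) : 𝕜) := by
          rw [← evalC0_apply, hz, map_sum]
          push_cast
          refine sum_congr rfl fun i _ => ?_
          rw [map_smul, evalC0_apply, hT, diagMat_pair (s := Set.range (code q)) (n := n) ⟨k, rfl⟩, ← (h n).sq, smul_eq_mul]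
          push_cast
          rfl
        have e3 := c0_apply_le z (Nat.pair n j)
        rw [e2, RCLike.norm_ofReal] at e3
        rw [e1]
        exact (le_abs_self _).trans (e3.trans ((hJ z).trans
          (mul_le_mul_of_nonneg_right (le_abs_self D) (norm_nonneg _))))
      have h3 := h2.trans (mul_le_mul_of_nonneg_left h1 (abs_nonneg D))
      have h4 := (h n).pos
      set M := ∑ i ∈ range (N n), ∑ j ∈ range (N n), |W n i j|
      have h5 : |D| * (1 / (|D| * |C| + 1) * |C| * M) = (|D| * |C|) * M / (|D| * |C| + 1) := by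
        ring
      rw [h5, le_div_iff₀ hp] at h3
      nlinarith
    · intro hU r hr
      refine small_comp_eventually 𝕜 (N := fun k => N (code r k)) (W := fun k => W (code r k))
        ?_ P J
      intro ε hε
      have hne : r ≠ q := fun h' => hU (h' ▸ hr)
      have ht : Tendsto (fun k => (8 : ℝ) / ((code r k : ℕ) + 1)) atTop (𝓝 0) :=
        Tendsto.div_atTop tendsto_const_nhds (tendsto_atTop_add_const_right _ _
          (tendsto_natCast_atTop_atTop.comp (tendsto_code r)))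
      filter_upwards [eventually_code hne, ht.eventually (gt_mem_nhds hε)] with k h1 h2
      exact (small_diag h h1 (T q) (hT q)).mono h2.le
  refine ⟨idealOf 𝕜 X Y N W, ?_, fun U => ⟨isClosed_idealOf 𝕜 X Y N W U, ?_⟩⟩
  · intro U V hUV
    ext q
    have h1 := hmem q U
    rw [hUV, hmem q V] at h1
    tauto
  · intro S hS A B r hr
    exact small_comp_eventually 𝕜 (N := fun k => N (code r k)) (W := fun k => W (code r k))
      (hS r hr) A B

theorem exists_ideals_l1_c0 (𝕜 : Type*) [RCLike 𝕜] :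
    ∃ f : Set (Set ℕ) → Submodule 𝕜 (L1 𝕜 →L[𝕜] C0 𝕜), Function.Injective f ∧
      ∀ U, IsClosed (f U : Set (L1 𝕜 →L[𝕜] C0 𝕜)) ∧
        ∀ T ∈ f U, ∀ (A : L1 𝕜 →L[𝕜] L1 𝕜) (B : C0 𝕜 →L[𝕜] C0 𝕜), B.comp (T.comp A) ∈ f U :=
  exists_ideals (L1 𝕜) (C0 𝕜) (ContinuousLinearMap.id 𝕜 _) 1 (fun u => lp.single 1 u 1)
    (fun u => by rw [lp.norm_single (by simp)]; simp) (fun _ => rfl)
    (ContinuousLinearMap.id 𝕜 _) 1 (fun z => by simp)

end Pool.Agent.P.MP_38279d_an
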